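import Pool.Agent.H63ne.Geo

set_option autoImplicit false

/-!
# The combinatorial inequality: functions concentrated near the vertices vary along the edges
-/

namespace Pool.Agent.H63ne

open Pool.Agent.Y269.EG Pool.Agent.Y375.EG FreeGroup

variable {k : ℕ} (A : Fam k)

/-- the inverse letter -/
def bar (s : Ltr k) : Ltr k := (s.1, !s.2)

theorem bar_bar (s : Ltr k) : bar (bar s) = s := by simp [bar]

theorem step_bar (n : ℕ) {v w : (A.Θ n).V} {s : Ltr k} (h : (A.Θ n).step v s = some w) :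
    (A.Θ n).step w (bar s) = some v := (A.Θ n).inv v s w h

/-- the first letter of a short reduced path from `v` to `p` -/
def Adir (n : ℕ) (p : (A.Θ n).V) (R : ℕ) (v : (A.Θ n).V) (s : Ltr k) : Prop :=
  ∃ l', IsReduced (s :: l') ∧ (A.Θ n).walk v (s :: l') = some p ∧ (s :: l').length ≤ 2 * R + 1

theorem adir_unique (n : ℕ) (p : (A.Θ n).V) (R : ℕ) (hR : 4 * R + 2 < A.g n) (v : (A.Θ n).V)
    (s s' : Ltr k) (h : Adir A n p R v s) (h' : Adir A n p R v s') : s = s' := by
  obtain ⟨l, h1, h2, h3⟩ := h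
  obtain ⟨m, h1', h2', h3'⟩ := h'
  by_contra hne
  have hw : (A.Θ n).walk v ((s :: l) ++ invRev (s' :: m)) = some v :=
    walk_append_of _ h2 (walk_rev _ h2')
  have hw2 := walk_reduce _ hw
  have hne2 : reduce ((s :: l) ++ invRev (s' :: m)) ≠ [] := by
    intro h0
    have h4 : (FreeGroup.mk ((s :: l) ++ invRev (s' :: m)) : F k) = 1 := by
      rw [← toWord_eq_nil_iff, toWord_mk]
      exact h0
    rw [← mul_mk, ← inv_mk, mul_inv_eq_one] at h4
    have h5 := congrArg toWord h4
    rw [toWord_mk, toWord_mk, h1.reduce_eq, h1'.reduce_eq] at h5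
    injection h5 with h6 _
    exact hne h6
  have h7 := (A.good n).girth v _ (IsReduced.of_reduce_eq reduce.idem) hne2 hw2
  have h8 : (reduce ((s :: l) ++ invRev (s' :: m))).length ≤
      ((s :: l) ++ invRev (s' :: m)).length := (Red.sublist reduce.red).length_le
  rw [List.length_append, invRev_length] at h8
  omega

theorem adir_or (n : ℕ) (p : (A.Θ n).V) (R : ℕ) (v w : (A.Θ n).V) (s : Ltr k)
    (hs : (A.Θ n).step v s = some w) (l : Wd k) (hl : (A.Θ n).walk v l = some p)
    (hlr : IsReduced l) (hlR : l.length ≤ 2 * R) :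
    Adir A n p R v s ∨ Adir A n p R w (bar s) := by
  have hback : (A.Θ n).walk w (bar s :: l) = some p := by
    show ((A.Θ n).step w (bar s)).bind _ = _
    rw [step_bar A n hs]
    exact hl
  rcases l with _ | ⟨t, l⟩
  · right
    refine ⟨[], ?_, hback, by simp⟩
    exact IsReduced.singleton
  · by_cases hst : s = t
    · left
      subst hst
      exact ⟨l, hlr, hl, by omega⟩
    · right
      refine ⟨t :: l, ?_, hback, by simp at hlR ⊢; omega⟩
      rw [FreeGroup.isReduced_cons_cons]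
      refine ⟨?_, hlr⟩
      intro h1
      by_contra h2
      apply hst
      obtain ⟨s1, s2⟩ := s
      obtain ⟨t1, t2⟩ := t
      simp only [bar] at h1 h2
      subst h1
      have : s2 = t2 := by
        revert h2
        cases s2 <;> cases t2 <;> simp
      rw [this]

/-- the elements near the image of `p` seen from `v` -/
theorem near_path (n R : ℕ) (hR6 : 6 * R < A.g n) (B : Finset (Gam A))
    (hB : ∀ b ∈ B, ∃ u : F k, (u : Gam A) = b ∧ u.norm ≤ R) (z : Gam A) (v p : (A.Θ n).V)
    (hv : (ph A n v)⁻¹ * z ∈ B) (hp : (ph A n p)⁻¹ * z ∈ B) :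
    ∃ l, (A.Θ n).walk v l = some p ∧ IsReduced l ∧ l.length ≤ 2 * R := by
  obtain ⟨u, hu, hur⟩ := hB _ hv
  obtain ⟨u', hu', hur'⟩ := hB _ hp
  apply loc A n (2 * R) (by omega) (u * u'⁻¹)
  · calc (u * u'⁻¹).norm ≤ u.norm + u'⁻¹.norm := norm_mul_le _ _
      _ ≤ 2 * R := by rw [norm_inv_eq]; omega
  · rw [QuotientGroup.mk_mul, QuotientGroup.mk_inv, hu, hu']
    group

/-- the involution on the oriented edges -/
def flip (n : ℕ) (e : (A.Θ n).V × Ltr k) : (A.Θ n).V × Ltr k :=
  ((A.Θ n).step e.1 e.2).elim e (fun w => (w, bar e.2))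

theorem flip_some (n : ℕ) {v w : (A.Θ n).V} {s : Ltr k} (h : (A.Θ n).step v s = some w) :
    flip A n (v, s) = (w, bar s) := by
  simp [flip, h]

theorem flip_none (n : ℕ) {v : (A.Θ n).V} {s : Ltr k} (h : (A.Θ n).step v s = none) :
    flip A n (v, s) = (v, s) := by
  simp [flip, h]

theorem flip_flip (n : ℕ) : Function.Involutive (flip A n) := by
  rintro ⟨v, s⟩
  rcases h : (A.Θ n).step v s with _ | w
  · rw [flip_none A n h, flip_none A n h]
  · rw [flip_some A n h, flip_some A n (step_bar A n h)]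
    show (v, bar (bar s)) = (v, s)
    rw [bar_bar]

theorem comb_z (n R : ℕ) (hR6 : 6 * R < A.g n) (hR4 : 4 * R + 2 < A.g n) (B : Finset (Gam A))
    (hB : ∀ b ∈ B, ∃ u : F k, (u : Gam A) = b ∧ u.norm ≤ R) (z : Gam A) (m : (A.Θ n).V → ℝ)
    (hm0 : ∀ v, 0 ≤ m v) (hm : ∀ v, m v ≠ 0 → (ph A n v)⁻¹ * z ∈ B) :
    ∑ v, ((A.Θ n).deg v : ℝ) * m v ≤ 2 * ∑ v, m v +
      ∑ v, ∑ s, ((A.Θ n).step v s).elim 0 (fun w => |m v - m w|) := by
  classical
  by_cases hall : ∀ v, m v = 0
  · have h1 : ∀ v, (∑ s, ((A.Θ n).step v s).elim 0 (fun w => |m v - m w|)) = 0 := by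
      intro v
      apply Finset.sum_eq_zero
      intro s _
      rcases (A.Θ n).step v s with _ | w
      · rfl
      · simp [hall]
    rw [Finset.sum_congr rfl (fun v _ => h1 v)]
    simp [hall]
  push Not at hall
  obtain ⟨p, hp⟩ := hall
  -- the first sum
  let G : (A.Θ n).V × Ltr k → ℝ := fun e => if Adir A n p R e.1 e.2 then
    ((A.Θ n).step e.1 e.2).elim 0 (fun _ => m e.1) else 0
  have hG1 : ∑ e, G e ≤ ∑ v, m v := by
    rw [Fintype.sum_prod_type]
    apply Finset.sum_le_sum
    intro v _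
    have h1 : ∀ s, G (v, s) ≤ if Adir A n p R v s then m v else 0 := by
      intro s
      by_cases hA : Adir A n p R v s
      · simp only [G, hA, if_true]
        rcases (A.Θ n).step v s with _ | w
        · exact hm0 v
        · exact le_refl _
      · simp only [G, hA, if_false, le_refl]
    refine (Finset.sum_le_sum fun s _ => h1 s).trans ?_
    rw [← Finset.sum_filter, Finset.sum_const, nsmul_eq_mul]
    have h2 : (Finset.univ.filter fun s => Adir A n p R v s).card ≤ 1 := by
      rw [Finset.card_le_one]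
      intro a ha b hb
      exact adir_unique A n p R hR4 v a b (Finset.mem_filter.1 ha).2 (Finset.mem_filter.1 hb).2
    have h3 : ((Finset.univ.filter fun s => Adir A n p R v s).card : ℝ) ≤ 1 := by
      exact_mod_cast h2
    nlinarith [hm0 v]
  have hG2 : ∑ e, G (flip A n e) = ∑ e, G e :=
    Equiv.sum_comp (flip_flip A n).toPerm G
  have hpt : ∀ v s, ((A.Θ n).step v s).elim 0 (fun _ => m v) ≤ G (v, s) + G (flip A n (v, s)) +
      ((A.Θ n).step v s).elim 0 (fun w => |m v - m w|) := by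
    intro v s
    rcases h : (A.Θ n).step v s with _ | w
    · have : G (v, s) = 0 := by
        simp only [G, h]
        split_ifs <;> rfl
      rw [flip_none A n h, this]
      simp
    · rw [flip_some A n h]
      have hb : (A.Θ n).step w (bar s) = some v := (A.Θ n).inv v s w h
      have h1 : G (v, s) = if Adir A n p R v s then m v else 0 := by
        simp only [G, h]
        rfl
      have h2 : G (w, bar s) = if Adir A n p R w (bar s) then m w else 0 := by
        simp only [G, hb]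
        rfl
      show m v ≤ _ + _ + |m v - m w|
      rw [h1, h2]
      have habs := le_abs_self (m v - m w)
      have habs0 := abs_nonneg (m v - m w)
      by_cases hz : m v = 0
      · have : 0 ≤ (if Adir A n p R w (bar s) then m w else 0) := by
          split_ifs
          · exact hm0 w
          · exact le_refl _
        have h4 : (if Adir A n p R v s then m v else 0) = 0 := by
          split_ifs
          · exact hz
          · rfl
        rw [h4]
        linarith
      obtain ⟨l, hl, hlr, hlR⟩ := near_path A n R hR6 B hB z v p (hm v hz) (hm p hp)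
      rcases adir_or A n p R v w s h l hl hlr hlR with h5 | h5
      · rw [if_pos h5]
        have : 0 ≤ (if Adir A n p R w (bar s) then m w else 0) := by
          split_ifs
          · exact hm0 w
          · exact le_refl _
        linarith
      · rw [if_pos h5]
        have : 0 ≤ (if Adir A n p R v s then m v else 0) := by
          split_ifs
          · exact hm0 v
          · exact le_refl _
        linarith
  have hdeg : ∀ v, ((A.Θ n).deg v : ℝ) * m v =
      ∑ s, ((A.Θ n).step v s).elim 0 (fun _ => m v) := by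
    intro v
    unfold LG.deg
    rw [← nsmul_eq_mul, ← Finset.sum_const, Finset.sum_filter]
    apply Finset.sum_congr rfl
    intro s _
    rcases (A.Θ n).step v s with _ | w
    · simp
    · simp
  calc ∑ v, ((A.Θ n).deg v : ℝ) * m v
      = ∑ v, ∑ s, ((A.Θ n).step v s).elim 0 (fun _ => m v) :=
        Finset.sum_congr rfl fun v _ => hdeg v
    _ ≤ ∑ v, ∑ s, (G (v, s) + G (flip A n (v, s)) +
        ((A.Θ n).step v s).elim 0 (fun w => |m v - m w|)) :=
        Finset.sum_le_sum fun v _ => Finset.sum_le_sum fun s _ => hpt v s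
    _ = ∑ e, G e + ∑ e, G (flip A n e) +
        ∑ v, ∑ s, ((A.Θ n).step v s).elim 0 (fun w => |m v - m w|) := by
        simp only [Finset.sum_add_distrib, Fintype.sum_prod_type]
    _ ≤ _ := by
        rw [hG2]
        linarith

theorem comb (n R : ℕ) (hR6 : 6 * R < A.g n) (hR4 : 4 * R + 2 < A.g n) (B : Finset (Gam A))
    (hB : ∀ b ∈ B, ∃ u : F k, (u : Gam A) = b ∧ u.norm ≤ R) (Z : Finset (Gam A))
    (m : (A.Θ n).V → Gam A → ℝ)
    (hm0 : ∀ v z, 0 ≤ m v z) (hm : ∀ v z, m v z ≠ 0 → (ph A n v)⁻¹ * z ∈ B) :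
    9 * (Fintype.card (A.Θ n).V : ℝ) ≤ 10 * ∑ v, ((∑ s, ((A.Θ n).step v s).elim 0
      (fun w => ∑ z ∈ Z, |m v z - m w z|)) + 2 * |∑ z ∈ Z, m v z - 1|) := by
  have h1 : ∑ z ∈ Z, ∑ v, ((A.Θ n).deg v : ℝ) * m v z ≤ ∑ z ∈ Z, (2 * ∑ v, m v z +
      ∑ v, ∑ s, ((A.Θ n).step v s).elim 0 (fun w => |m v z - m w z|)) :=
    Finset.sum_le_sum fun z _ => comb_z A n R hR6 hR4 B hB z (fun v => m v z)
      (fun v => hm0 v z) (fun v => hm v z)
  rw [Finset.sum_comm, Finset.sum_add_distrib, ← Finset.mul_sum] at h1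
  rw [Finset.sum_comm (s := Z) (f := fun z v => m v z)] at h1
  rw [Finset.sum_comm (s := Z)
    (f := fun z v => ∑ s, ((A.Θ n).step v s).elim 0 (fun w => |m v z - m w z|))] at h1
  have h2 : ∀ v, ∑ z ∈ Z, ∑ s, ((A.Θ n).step v s).elim 0 (fun w => |m v z - m w z|) =
      ∑ s, ((A.Θ n).step v s).elim 0 (fun w => ∑ z ∈ Z, |m v z - m w z|) := by
    intro v
    rw [Finset.sum_comm]
    apply Finset.sum_congr rfl
    intro s _
    rcases (A.Θ n).step v s with _ | w
    · simp
    · rfl
  rw [Finset.sum_congr rfl (fun v _ => h2 v)] at h1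
  simp only [← Finset.mul_sum] at h1
  have havg : (29 : ℝ) * Fintype.card (A.Θ n).V ≤ 10 * ∑ v, ((A.Θ n).deg v : ℝ) := by
    exact_mod_cast (A.good n).avg
  have h3 : ∀ v, ((A.Θ n).deg v : ℝ) - 2 ≤
      ((A.Θ n).deg v : ℝ) * (∑ z ∈ Z, m v z) - 2 * (∑ z ∈ Z, m v z) +
        2 * |∑ z ∈ Z, m v z - 1| := by
    intro v
    have hd3 : ((A.Θ n).deg v : ℝ) ≤ 3 := by exact_mod_cast (A.good n).deg v
    have hd0 : (0 : ℝ) ≤ ((A.Θ n).deg v : ℝ) := Nat.cast_nonneg _
    have ha := le_abs_self (∑ z ∈ Z, m v z - 1)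
    have hb := neg_abs_le (∑ z ∈ Z, m v z - 1)
    have hc := abs_nonneg (∑ z ∈ Z, m v z - 1)
    generalize ∑ z ∈ Z, m v z = t at *
    generalize |t - 1| = q at *
    generalize ((A.Θ n).deg v : ℝ) = d at *
    -- `(d - 2) (t - 1) + 2 q ≥ 0`
    have : 0 ≤ (d - 2) * (t - 1) + 2 * q := by
      by_cases hd : 2 ≤ d
      · nlinarith
      · push Not at hd
        nlinarith
    nlinarith
  have h4 : ∑ v, (((A.Θ n).deg v : ℝ) - 2) ≤ ∑ v,
      (((A.Θ n).deg v : ℝ) * (∑ z ∈ Z, m v z) - 2 * (∑ z ∈ Z, m v z) +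
        2 * |∑ z ∈ Z, m v z - 1|) := Finset.sum_le_sum fun v _ => h3 v
  rw [Finset.sum_sub_distrib, Finset.sum_const, nsmul_eq_mul, Finset.card_univ] at h4
  rw [Finset.sum_add_distrib, Finset.sum_sub_distrib, ← Finset.mul_sum] at h4
  rw [Finset.sum_add_distrib]
  linarith

variable {Y : Type*} [MulAction (Gam A) Y]

/-- the variation of a family of functions -/
noncomputable def Psi (B' : Finset (Gam A)) (f : Gam A → Y → ℝ) (x : Y) : ℝ :=
  (∑ s : Ltr k, ∑ h ∈ B', |f h x - f ((sg A s)⁻¹ * h) ((sg A s)⁻¹ • x)|) +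
    2 * |∑ h ∈ B', f h x - 1|

theorem comb_Y (n R : ℕ) (hR6 : 6 * R < A.g n) (hR4 : 4 * R + 2 < A.g n) (B B' : Finset (Gam A))
    (hB : ∀ b ∈ B, ∃ u : F k, (u : Gam A) = b ∧ u.norm ≤ R)
    (hBB : B ⊆ B') (hsB : ∀ s : Ltr k, ∀ b ∈ B, sg A s * b ∈ B')
    (f : Gam A → Y → ℝ) (hf0 : ∀ h x, 0 ≤ f h x) (hf : ∀ h x, f h x ≠ 0 → h ∈ B) (y0 : Y) :
    9 * (Fintype.card (A.Θ n).V : ℝ) ≤ 10 * ∑ v, Psi A B' f ((ph A n v)⁻¹ • y0) := by
  classical
  let m : (A.Θ n).V → Gam A → ℝ := fun v z => f ((ph A n v)⁻¹ * z) ((ph A n v)⁻¹ • y0)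
  let Z : Finset (Gam A) := Finset.univ.biUnion fun v => B'.image (fun h => ph A n v * h)
  have h1 := comb A n R hR6 hR4 B hB Z m (fun v z => hf0 _ _) (fun v z h => hf _ _ h)
  refine h1.trans ?_
  have hsub : ∀ v, B'.image (fun h => ph A n v * h) ⊆ Z := fun v =>
    Finset.subset_biUnion_of_mem (fun v => B'.image (fun h => ph A n v * h)) (Finset.mem_univ v)
  have hsum : ∀ v (q : Gam A → ℝ), (∀ z, q z ≠ 0 → (ph A n v)⁻¹ * z ∈ B') →
      ∑ z ∈ Z, q z = ∑ h ∈ B', q (ph A n v * h) := by
    intro v q hq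
    rw [← Finset.sum_image (f := q) (g := fun h => ph A n v * h)]
    · symm
      apply Finset.sum_subset (hsub v)
      intro z _ hz
      by_contra hne
      apply hz
      rw [Finset.mem_image]
      exact ⟨_, hq z hne, by group⟩
    · intro a _ b _ hab
      exact mul_left_cancel hab
  have hv : ∀ v, (∑ s, ((A.Θ n).step v s).elim 0
      (fun w => ∑ z ∈ Z, |m v z - m w z|)) + 2 * |∑ z ∈ Z, m v z - 1| ≤
      Psi A B' f ((ph A n v)⁻¹ • y0) := by
    intro v
    unfold Psi
    have e1 : ∑ z ∈ Z, m v z = ∑ h ∈ B', f h ((ph A n v)⁻¹ • y0) := by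
      rw [hsum v (m v) (fun z hz => hBB (hf _ _ hz))]
      apply Finset.sum_congr rfl
      intro h _
      simp only [m, inv_mul_cancel_left]
    rw [e1]
    gcongr with s hs
    rcases h : (A.Θ n).step v s with _ | w
    · exact Finset.sum_nonneg fun h _ => abs_nonneg _
    · show ∑ z ∈ Z, |m v z - m w z| ≤ _
      have hw := ph_step A n h
      have hmw : ∀ z, m w z = f ((sg A s)⁻¹ * ((ph A n v)⁻¹ * z))
          ((sg A s)⁻¹ • (ph A n v)⁻¹ • y0) := by
        intro z
        simp only [m]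
        rw [hw, mul_inv_rev, mul_smul, mul_assoc]
      rw [hsum v]
      · apply le_of_eq
        apply Finset.sum_congr rfl
        intro h _
        rw [hmw]
        simp only [m, inv_mul_cancel_left]
      · intro z hz
        by_contra hne
        apply hz
        have h3 : m v z = 0 := by
          by_contra h4
          exact hne (hBB (hf _ _ h4))
        have h4 : m w z = 0 := by
          by_contra h5
          rw [hmw] at h5
          have h6 := hsB s _ (hf _ _ h5)
          rw [mul_inv_cancel_left] at h6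
          exact hne h6
        rw [h3, h4]
        simp
  have := Finset.sum_le_sum fun v (_ : v ∈ (Finset.univ : Finset (A.Θ n).V)) => hv v
  linarith

end Pool.Agent.H63ne
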