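import Mathlib.Topology.Sets.VietorisTopology
import Mathlib.Topology.UnitInterval
import Mathlib.MeasureTheory.Constructions.BorelSpace.Basic
import Mathlib.Topology.GDelta.Basic

set_option autoImplicit false

/-!
# The space of subshifts with the Hilbert cube as alphabet, hyperfiniteness
-/

namespace Pool.Agent.H63ne

open TopologicalSpace

/-- The shift space `(I^ℕ)^Γ` whose alphabet is the Hilbert cube `I^ℕ`, `I = [0,1]`. -/
def ShiftSpace (Γ : Type) : Type := Γ → ℕ → unitInterval

/-- The product topology on the shift space. -/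
instance instTopShift (Γ : Type) : TopologicalSpace (ShiftSpace Γ) :=
  (Pi.topologicalSpace : TopologicalSpace (Γ → ℕ → unitInterval))

/-- The shift action of `Γ`: `(γ · x)(δ) = x(γ⁻¹ δ)`. -/
def shift {Γ : Type} [Group Γ] (γ : Γ) (x : ShiftSpace Γ) : ShiftSpace Γ := fun δ => x (γ⁻¹ * δ)

/-- The space of subshifts `Sh(Γ, I^ℕ)`: the compact (equivalently, closed) subsets of the shift
space which are invariant under the shift action. -/
def Sh (Γ : Type) [Group Γ] : Type :=
  {Y : Compacts (ShiftSpace Γ) // ∀ γ : Γ, ∀ x ∈ Y, shift γ x ∈ Y}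

/-- `Sh(Γ, I^ℕ)` is a subspace of the hyperspace of all compact subsets of the shift space with
the Vietoris topology. -/
instance instTopSh (Γ : Type) [Group Γ] : TopologicalSpace (Sh Γ) :=
  instTopologicalSpaceSubtype

/-- The points of a subshift, with the subspace topology. -/
abbrev Sh.Pt {Γ : Type} [Group Γ] (Y : Sh Γ) : Type := {x : ShiftSpace Γ // x ∈ Y.1}

/-- An equivalence relation on a topological space `X` which is a Borel subset of `X × X`. -/
def IsBorelEquiv {X : Type} [TopologicalSpace X] (F : Setoid X) : Prop :=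
  @MeasurableSet (X × X) (borel (X × X)) {p : X × X | F p.1 p.2}

/-- The relation `E` on the topological space `X` is hyperfinite: it is the union of an increasing
sequence `F 0 ⊆ F 1 ⊆ ...` of Borel equivalence relations all of whose classes are finite. -/
def IsHyperfiniteRel {X : Type} [TopologicalSpace X] (E : X → X → Prop) : Prop :=
  ∃ F : ℕ → Setoid X, Monotone F ∧ (∀ n, IsBorelEquiv (F n)) ∧ (∀ n x, {y | F n x y}.Finite) ∧
    ∀ x y : X, E x y ↔ ∃ n, F n x y

/-- The orbit equivalence relation `E_Y` of the shift action on the subshift `Y`. -/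
def orbitRel {Γ : Type} [Group Γ] (Y : Sh Γ) (x y : Y.Pt) : Prop :=
  ∃ γ : Γ, y.1 = shift γ x.1

/-- The orbit equivalence relation `E_Y` of the shift action on the subshift `Y` is
hyperfinite. -/
def IsHyperfinite {Γ : Type} [Group Γ] (Y : Sh Γ) : Prop := IsHyperfiniteRel (orbitRel Y)

/-- The set `Sh_hyp(Γ, I^ℕ)` of the subshifts whose orbit equivalence relation is hyperfinite. -/
def ShHyp (Γ : Type) [Group Γ] : Set (Sh Γ) := {Y | IsHyperfinite Y}

/-- The set of the nonempty subshifts. -/
def ShNonempty (Γ : Type) [Group Γ] : Set (Sh Γ) := {Y | Y.1 ≠ ⊥}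

/-- `S` is comeager in `Sh(Γ, I^ℕ)`: it contains the intersection of countably many dense open
sets. -/
def IsComeagerSh {Γ : Type} [Group Γ] (S : Set (Sh Γ)) : Prop := S ∈ residual (Sh Γ)

end Pool.Agent.H63ne
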