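import Pool.Agent.Y375.EG.Green
import Pool.Agent.H63ne.WindR

set_option autoImplicit false

/-!
# The strong Greendlinger lemma for a sequence of labelled graphs
-/

namespace Pool.Agent.H63ne

open Pool.Agent.Y269.EG Pool.Agent.Y375.EG FreeGroup

variable {k : ℕ}

/-- the pieces: the translates of the trees of the graphs -/
structure Idx (k : ℕ) where
  n : ℕ
  t : F k

instance : MulAction (F k) (Idx k) where
  smul g i := ⟨i.n, g * i.t⟩
  one_smul i := by
    show (⟨i.n, 1 * i.t⟩ : Idx k) = i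
    rw [one_mul]
  mul_smul a b i := by
    show (⟨i.n, a * b * i.t⟩ : Idx k) = ⟨i.n, a * (b * i.t)⟩
    rw [mul_assoc]

theorem smul_n (g : F k) (i : Idx k) : (g • i).n = i.n := rfl
theorem smul_t (g : F k) (i : Idx k) : (g • i).t = g * i.t := rfl

variable (A : Fam k)

/-- the normal subgroup generated by the labels of the closed paths of all graphs -/
def NA : Subgroup (F k) := ⨆ i : Idx k, Ht (A.Θ i.n) i.t

theorem M_le {m n : ℕ} (h : m ≤ n) : A.M m ≤ A.M n := A.monoM h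
theorem g_le {m n : ℕ} (h : m ≤ n) : A.g m ≤ A.g n := A.monog.monotone h

/-- the rotating family -/
noncomputable def rotF (π : ℕ → F k → F k) (hπ : ∀ n, IsGate (YY (A.Θ n)) (π n)) :
    Rot (F k) (F k) (Idx k) where
  d p q := (dF p q : ℤ)
  D i p q := (Dt (π i.n) i.t p q : ℤ)
  H i := Ht (A.Θ i.n) i.t
  K := 100
  R i := (A.g i.n : ℤ)
  v0 := 1
  hK := by norm_num
  hKR i := by
    have := (A.big i.n).1
    omega
  d_self p := by
    have := dF_self p
    omega
  d_symm p q := by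
    have := dF_symm p q
    omega
  d_tri p q r := by
    have := dF_tri p q r
    omega
  d_smul u p q := by
    have := dF_smul u p q
    show (dF (u * p) (u * q) : ℤ) = _
    omega
  d_step n q hq := by
    have hq' : dF 1 q ≤ n + 1 := by omega
    have e1 : ∀ x : F k, dF 1 x = x.norm := fun x => by
      unfold dF
      rw [inv_one, one_mul]
    rw [e1] at hq'
    rcases List.eq_nil_or_concat' q.toWord with h | ⟨l, s, h⟩
    · refine ⟨q, ?_, ?_⟩
      · have : dF 1 q = 0 := by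
          rw [e1]
          show q.toWord.length = 0
          rw [h]
          rfl
        omega
      · have := dF_self q
        omega
    · have hl : IsReduced l := red_left (m := [s]) (by rw [← h]; exact isReduced_toWord)
      have hn : l.length + 1 ≤ n + 1 := by
        have : q.norm = l.length + 1 := by
          show q.toWord.length = _
          rw [h, List.length_append]
          rfl
        omega
      refine ⟨FreeGroup.mk l, ?_, ?_⟩
      · have : dF 1 (FreeGroup.mk l) = l.length := by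
          rw [e1, norm_mk hl]
        omega
      · have e2 : q = FreeGroup.mk l * FreeGroup.mk [s] := by
          rw [← mk_append, ← h, mk_toWord]
        have : dF (FreeGroup.mk l) q = 1 := by
          unfold dF
          rw [e2, inv_mul_cancel_left, norm_letter]
        omega
  D_nonneg i p q := by omega
  D_symm i p q := by
    have := dF_symm (π i.n (i.t⁻¹ * p)) (π i.n (i.t⁻¹ * q))
    unfold Dt
    omega
  D_tri i p q r := by
    have := dF_tri (π i.n (i.t⁻¹ * p)) (π i.n (i.t⁻¹ * q)) (π i.n (i.t⁻¹ * r))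
    unfold Dt
    omega
  D_le i p q := by
    have h1 := gate_lip (hπ i.n) (i.t⁻¹ * p) (i.t⁻¹ * q)
    have h2 := dF_smul i.t⁻¹ p q
    unfold Dt
    omega
  D_smul u i p q := by
    show (Dt (π i.n) (u * i.t) (u * p) (u * q) : ℤ) = _
    unfold Dt
    have e : ∀ p, (u * i.t)⁻¹ * (u * p) = i.t⁻¹ * p := fun p => by group
    rw [e, e]
  D_H i h hh p q := by
    show (Dt (π i.n) i.t (h * p) (h * q) : ℤ) = _
    rw [mem_Ht] at hh
    unfold Dt
    have e : ∀ p, i.t⁻¹ * (h * p) = (i.t⁻¹ * h * i.t) * (i.t⁻¹ * p) := fun p => by group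
    rw [e, e, gate_smul (hπ i.n) hh, gate_smul (hπ i.n) hh, dF_smul]
  H_smul u i h hh := by
    rw [mem_Ht] at hh
    show u * h * u⁻¹ ∈ Ht (A.Θ i.n) (u * i.t)
    rw [mem_Ht]
    have e : (u * i.t)⁻¹ * (u * h * u⁻¹) * (u * i.t) = i.t⁻¹ * h * i.t := by group
    rw [e]
    exact hh
  R_smul u i := rfl
  htau i h hh h1 p := by
    rw [mem_Ht] at hh
    show (A.g i.n : ℤ) ≤ (Dt (π i.n) i.t (h * p) p : ℤ)
    have e : i.t⁻¹ * (h * p) = (i.t⁻¹ * h * i.t) * (i.t⁻¹ * p) := by group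
    have hne : i.t⁻¹ * h * i.t ≠ 1 := by
      intro h3
      apply h1
      have : h = i.t * (i.t⁻¹ * h * i.t) * i.t⁻¹ := by group
      rw [this, h3]
      group
    have := norm_closed (A.good i.n) hh hne ((hπ i.n).1 (i.t⁻¹ * p))
    unfold Dt
    rw [e, gate_smul (hπ i.n) hh]
    exact_mod_cast this
  dich i j := by
    obtain ⟨n, t⟩ := i
    obtain ⟨n', t'⟩ := j
    set c := t⁻¹ * t' with hc
    -- a bound for the length of common words, of different vertices or different graphs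
    have split : ∀ M : ℕ, 1 ≤ M → 400 * M ≤ A.g n → 400 * M ≤ A.g n' →
        (¬ ∃ u v : F k, u ∈ YY (A.Θ n) ∧ c⁻¹ * u ∈ YY (A.Θ n') ∧ v ∈ YY (A.Θ n) ∧
          c⁻¹ * v ∈ YY (A.Θ n') ∧ M ≤ dF u v) →
        ∃ S T : Set (F k), (∀ p, p ∈ S ∨ p ∈ T) ∧
          (∀ a ∈ S, ∀ a' ∈ S, (100 : ℤ) * (Dt (π n) t a a' : ℤ) < (A.g n : ℤ)) ∧
          (∀ b ∈ T, ∀ b' ∈ T, (100 : ℤ) * (Dt (π n') t' b b' : ℤ) < (A.g n' : ℤ)) := by
      intro M hM1 hM hM' hov
      push Not at hov
      obtain ⟨S, T, hcov, hA, hB⟩ := dich k (YY (A.Θ n)) {x | c⁻¹ * x ∈ YY (A.Θ n')} (π n)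
        (fun x => c * π n' (c⁻¹ * x)) M hM1 (YY_cvx (A.Θ n)) (cvx_translate (YY_cvx (A.Θ n')) c)
        (hπ n) (gate_translate (hπ n') c) (fun u hu v hv => hov u v hu.1 hu.2 hv.1 hv.2)
      refine ⟨{p | t⁻¹ * p ∈ S}, {p | t⁻¹ * p ∈ T}, fun p => hcov _, ?_, ?_⟩
      · intro a ha a' ha'
        have h3 := hA _ ha _ ha'
        unfold Dt
        omega
      · intro b hb b' hb'
        have h3 := hB _ hb _ hb'
        have e5 : ∀ p, c⁻¹ * (t⁻¹ * p) = t'⁻¹ * p := fun p => by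
          rw [hc]
          group
        simp only [e5, dF_smul] at h3
        unfold Dt
        omega
    rcases lt_trichotomy n n' with hlt | heq | hgt
    · right
      refine split (A.M n) (A.big n).2.2 (A.big n).2.1 ((A.big n).2.1.trans (g_le A hlt.le)) ?_
      rintro ⟨u, v, hu, hu', hv, hv', hd⟩
      rw [mem_YY] at hu hu' hv hv'
      obtain ⟨a, ha⟩ := hu
      obtain ⟨a', ha'⟩ := hu'
      obtain ⟨b, hb⟩ := hv
      obtain ⟨b', hb'⟩ := hv'
      have h3 := E_between (A.Θ n) ha hb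
      have h4 := E_between (A.Θ n') ha' hb'
      have e : (c⁻¹ * u)⁻¹ * (c⁻¹ * v) = u⁻¹ * v := by group
      rw [e] at h4
      exact A.cross n n' a a' (u⁻¹ * v).toWord hlt isReduced_toWord hd
        (by unfold E at h3; rw [h3]; rfl) (by unfold E at h4; rw [h4]; rfl)
    · subst heq
      by_cases hov : ∃ u v : F k, u ∈ YY (A.Θ n) ∧ c⁻¹ * u ∈ YY (A.Θ n) ∧ v ∈ YY (A.Θ n) ∧
          c⁻¹ * v ∈ YY (A.Θ n) ∧ A.M n ≤ dF u v
      · left
        obtain ⟨u, v, hu, hu', hv, hv', hd⟩ := hov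
        rw [mem_YY] at hu hu' hv hv'
        obtain ⟨a, ha⟩ := hu
        obtain ⟨a', ha'⟩ := hu'
        obtain ⟨b, hb⟩ := hv
        obtain ⟨b', hb'⟩ := hv'
        have h3 := E_between (A.Θ n) ha hb
        have h4 := E_between (A.Θ n) ha' hb'
        have e : (c⁻¹ * u)⁻¹ * (c⁻¹ * v) = u⁻¹ * v := by group
        rw [e] at h4
        have haa : a = a' := by
          by_contra hne
          have := (A.good n).piece a a' (u⁻¹ * v).toWord hne isReduced_toWord
            (by unfold E at h3; rw [h3]; rfl) (by unfold E at h4; rw [h4]; rfl)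
          unfold dF at hd
          have h5 : (u⁻¹ * v).toWord.length = (u⁻¹ * v).norm := rfl
          omega
        subst haa
        have hcH : c ∈ HH (A.Θ n) := by
          have h5 := E_mul (A.Θ n) ha (E_inv (A.Θ n) ha')
          have e2 : u * (c⁻¹ * u)⁻¹ = c := by group
          rw [e2] at h5
          exact h5
        refine ⟨?_, rfl, ?_⟩
        · ext x
          show x ∈ Ht (A.Θ n) t ↔ x ∈ Ht (A.Θ n) t'
          rw [mem_Ht, mem_Ht]
          have e3 : t'⁻¹ * x * t' = c⁻¹ * (t⁻¹ * x * t) * c := by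
            rw [hc]
            group
          rw [e3]
          constructor
          · intro h
            exact (HH (A.Θ n)).mul_mem ((HH (A.Θ n)).mul_mem ((HH (A.Θ n)).inv_mem hcH) h) hcH
          · intro h
            have h6 := (HH (A.Θ n)).mul_mem ((HH (A.Θ n)).mul_mem hcH h)
              ((HH (A.Θ n)).inv_mem hcH)
            have e4 : c * (c⁻¹ * (t⁻¹ * x * t) * c) * c⁻¹ = t⁻¹ * x * t := by group
            rw [e4] at h6
            exact h6
        · intro p q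
          show (Dt (π n) t p q : ℤ) = (Dt (π n) t' p q : ℤ)
          unfold Dt
          have e5 : ∀ p, t'⁻¹ * p = c⁻¹ * (t⁻¹ * p) := fun p => by
            rw [hc]
            group
          rw [e5, e5, gate_smul (hπ n) ((HH (A.Θ n)).inv_mem hcH),
            gate_smul (hπ n) ((HH (A.Θ n)).inv_mem hcH), dF_smul]
      · right
        exact split (A.M n) (A.big n).2.2 (A.big n).2.1 (A.big n).2.1 hov
    · right
      refine split (A.M n') (A.big n').2.2 ((A.big n').2.1.trans (g_le A hgt.le))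
        (A.big n').2.1 ?_
      rintro ⟨u, v, hu, hu', hv, hv', hd⟩
      rw [mem_YY] at hu hu' hv hv'
      obtain ⟨a, ha⟩ := hu
      obtain ⟨a', ha'⟩ := hu'
      obtain ⟨b, hb⟩ := hv
      obtain ⟨b', hb'⟩ := hv'
      have h3 := E_between (A.Θ n) ha hb
      have h4 := E_between (A.Θ n') ha' hb'
      have e : (c⁻¹ * u)⁻¹ * (c⁻¹ * v) = u⁻¹ * v := by group
      rw [e] at h4
      exact A.cross n' n a' a (u⁻¹ * v).toWord hgt isReduced_toWord hd
        (by unfold E at h4; rw [h4]; rfl) (by unfold E at h3; rw [h3]; rfl)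

/-- the strong Greendlinger lemma -/
theorem greenF (γ : F k) (hγ : γ ∈ NA A) (hγ1 : γ ≠ 1) :
    ∃ (n : ℕ) (α β δ ε : Wd k) (θ θ' : (A.Θ n).V), γ.toWord = α ++ β ++ δ ∧
      (A.Θ n).walk θ β = some θ' ∧ (A.Θ n).walk θ ε = some θ' ∧ FreeGroup.IsReduced ε ∧
      100 * ε.length ≤ 6 * A.g n ∧ 94 * A.g n ≤ 100 * β.length := by
  choose π hπ using fun n => gate k (YY (A.Θ n)) ⟨1, one_mem_YY (A.Θ n)⟩ (YY_cvx (A.Θ n))
  obtain ⟨⟨n, t⟩, x, hx, hx1, hxD⟩ := (rotF A π hπ).windmill γ hγ hγ1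
  have hx' : t⁻¹ * x * t ∈ HH (A.Θ n) := (mem_Ht t x).1 hx
  have hxD' : (100 : ℤ) * (Dt (π n) t 1 (x⁻¹ * (γ * 1)) : ℤ) ≤ 6 * (A.g n : ℤ) := hxD
  rw [mul_one] at hxD'
  have hd : 100 * Dt (π n) t 1 (x⁻¹ * γ) ≤ 6 * A.g n := by omega
  unfold Dt at hd
  rw [mul_one] at hd
  set u := t⁻¹ * x * t with hu
  have hu1 : u ≠ 1 := by
    intro h3
    apply hx1
    have : x = t * u * t⁻¹ := by
      rw [hu]
      group
    rw [this, h3]
    group
  set p1 := t⁻¹ with hp1
  set p2 := t⁻¹ * γ with hp2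
  have e1 : p1 * (x⁻¹ * γ) = u⁻¹ * p2 := by
    rw [hu, hp2, hp1]
    group
  rw [e1, gate_smul (hπ n) ((HH (A.Θ n)).inv_mem hx')] at hd
  set y1 := π n p1 with hy1
  set y2 := π n p2 with hy2
  have hY1 : y1 ∈ YY (A.Θ n) := (hπ n).1 _
  have hY2 : y2 ∈ YY (A.Θ n) := (hπ n).1 _
  -- lengths
  have hg := (A.big n).1
  have hlong := norm_closed (A.good n) ((HH (A.Θ n)).inv_mem hx') (inv_ne_one.2 hu1) hY2
  have htri := dF_tri (u⁻¹ * y2) y1 y2
  have hsym := dF_symm (u⁻¹ * y2) y1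
  have hβ : 94 * A.g n ≤ 100 * dF y1 y2 := by omega
  have hne : y1 ≠ y2 := by
    intro h
    rw [h, dF_self] at hβ
    omega
  obtain ⟨θ, hθ⟩ := (mem_YY (A.Θ n) y1).1 hY1
  obtain ⟨θ', hθ'⟩ := (mem_YY (A.Θ n) y2).1 hY2
  have g1 := (hπ n).2 p1 y2 hY2
  have g2 := (hπ n).2 p2 y1 hY1
  rw [← hy1] at g1
  rw [← hy2] at g2
  have s1 := dF_symm y2 p1
  have s2 := dF_symm y2 y1
  have s3 := dF_symm y1 p1
  have hw : (p1⁻¹ * p2).toWord = (p1⁻¹ * y1).toWord ++ (y1⁻¹ * y2).toWord ++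
      (y2⁻¹ * p2).toWord := l2g_word (by omega) g2 hne
  have e2 : p1⁻¹ * p2 = γ := by
    rw [hp1, hp2]
    group
  rw [e2] at hw
  refine ⟨n, (p1⁻¹ * y1).toWord, (y1⁻¹ * y2).toWord, (y2⁻¹ * p2).toWord,
    (y1⁻¹ * (u⁻¹ * y2)).toWord, θ, θ', hw, E_between (A.Θ n) hθ hθ', ?_, isReduced_toWord, ?_, ?_⟩
  · exact E_between (A.Θ n) hθ (E_mul (A.Θ n) ((HH (A.Θ n)).inv_mem hx') hθ')
  · exact hd
  · exact hβ

end Pool.Agent.H63ne
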