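import Pool.Agent.H63ne.Meas

set_option autoImplicit false
set_option linter.unusedSectionVars false
set_option linter.unusedVariables false

/-!
# Free actions of the group on compact spaces are not hyperfinite
-/

namespace Pool.Agent.H63ne

open Pool.Agent.Y269.EG Pool.Agent.Y375.EG FreeGroup MeasureTheory Filter Topology

variable {k : ℕ} (A : Fam k)

instance gam_countable : Countable (Gam A) := by
  have : Countable (F k) := by
    unfold F FreeGroup
    infer_instance
  exact (QuotientGroup.mk_surjective (s := NA A)).countable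

section
variable {Y : Type*} [MulAction (Gam A) Y] [TopologicalSpace Y] [CompactSpace Y] [T2Space Y]
  [SecondCountableTopology Y] [MeasurableSpace Y] [BorelSpace Y]
  [ContinuousConstSMul (Gam A) Y]

theorem small_of_inter (μ : Measure Y) [IsFiniteMeasure μ] (S : ℕ → Set Y)
    (hS : ∀ i, MeasurableSet (S i)) (hanti : Antitone S) (hempty : ∀ x, ∃ i, x ∉ S i)
    (ε : ℝ) (hε : 0 < ε) : ∃ i, μ.real (S i) < ε := by
  have h1 := tendsto_measure_iInter_atTop (μ := μ) (fun i => (hS i).nullMeasurableSet) hanti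
    ⟨0, measure_ne_top _ _⟩
  have h2 : (⋂ n, S n) = ∅ := by
    ext x
    simp only [Set.mem_iInter, Set.mem_empty_iff_false, iff_false, not_forall]
    exact hempty x
  rw [h2, measure_empty] at h1
  have h3 : Tendsto (fun i => μ.real (S i)) atTop (𝓝 0) := by
    have := (ENNReal.tendsto_toReal (a := 0) (by simp)).comp h1
    rw [ENNReal.toReal_zero] at this
    exact this
  obtain ⟨i, hi⟩ := (h3.eventually (gt_mem_nhds hε)).exists
  exact ⟨i, hi⟩

theorem not_hyp [Nonempty Y] (hfree : ∀ (γ : Gam A) (x : Y), γ • x = x → γ = 1)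
    (Fi : ℕ → Setoid Y) (hmono : Monotone Fi)
    (hmeas : ∀ i, MeasurableSet {p : Y × Y | Fi i p.1 p.2})
    (hfin : ∀ i x, {y | Fi i x y}.Finite)
    (hun : ∀ x (γ : Gam A), ∃ i, Fi i x (γ • x)) : False := by
  classical
  obtain ⟨μ, hμ⟩ := exists_limit A (Y := Y)
  obtain ⟨e, he⟩ := exists_surjective_nat (Gam A)
  let B : ℕ → Finset (Gam A) := fun j => (Finset.range j).image e
  have hBmono : Monotone B := by
    intro a b hab
    exact Finset.image_subset_image (Finset.range_subset_range.2 hab)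
  have hBex : ∀ h, ∃ j, h ∈ B j := by
    intro h
    obtain ⟨j, rfl⟩ := he h
    exact ⟨j + 1, Finset.mem_image_of_mem e (by simp)⟩
  have hBfin : ∀ S : Set (Gam A), S.Finite → ∃ j, ∀ h ∈ S, h ∈ B j := by
    intro S hS
    induction S, hS using Set.Finite.induction_on with
    | empty => exact ⟨0, fun h hh => absurd hh (Set.notMem_empty h)⟩
    | @insert a S _ _ ih =>
      obtain ⟨j, hj⟩ := ih
      obtain ⟨j', hj'⟩ := hBex a
      refine ⟨max j j', ?_⟩
      rintro h (rfl | hh)
      · exact hBmono (le_max_right _ _) hj'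
      · exact hBmono (le_max_left _ _) (hj h hh)
  have hmono' : ∀ {i j x y}, i ≤ j → Fi i x y → Fi j x y := fun hij h => hmono hij h
  -- measurability
  have hM1 : ∀ i (h : Gam A), MeasurableSet {x : Y | Fi i (h⁻¹ • x) x} := by
    intro i h
    have : Measurable fun x : Y => (h⁻¹ • x, x) :=
      (continuous_const_smul _).measurable.prodMk measurable_id
    exact this (hmeas i)
  have hM2 : ∀ i (h : Gam A), MeasurableSet {x : Y | Fi i x (h • x)} := by
    intro i h
    have : Measurable fun x : Y => (x, h • x) :=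
      measurable_id.prodMk (continuous_const_smul _).measurable
    exact this (hmeas i)
  -- the first bad set
  let S1 : ℕ → Set Y := fun i => {x | ∃ s : Ltr k, ¬ Fi i x ((sg A s)⁻¹ • x)}
  have hS1m : ∀ i, MeasurableSet (S1 i) := by
    intro i
    have : S1 i = ⋃ s : Ltr k, {x : Y | Fi i x ((sg A s)⁻¹ • x)}ᶜ := by
      ext x
      simp [S1]
    rw [this]
    exact MeasurableSet.iUnion fun s => (hM2 i _).compl
  have hS1a : Antitone S1 := by
    rintro i j hij x ⟨s, hs⟩
    exact ⟨s, fun h => hs (hmono' hij h)⟩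
  have hS1e : ∀ x, ∃ i, x ∉ S1 i := by
    intro x
    choose i hi using fun s : Ltr k => hun x (sg A s)⁻¹
    refine ⟨Finset.univ.sup i, ?_⟩
    rintro ⟨s, hs⟩
    exact hs (hmono' (Finset.le_sup (f := i) (Finset.mem_univ s)) (hi s))
  -- the constant
  let C : ℝ := 2 * Fintype.card (Ltr k) + 2
  have hC : 0 < C := by positivity
  have hεpos : (0 : ℝ) < 9 / (40 * C) := by positivity
  obtain ⟨i, hi⟩ := small_of_inter (μ : Measure Y) S1 hS1m hS1a hS1e _ hεpos
  -- the second bad set
  let S2 : ℕ → Set Y := fun j => {x | ∃ h : Gam A, Fi i (h⁻¹ • x) x ∧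
    ¬ (h ∈ B j ∧ ∀ s : Ltr k, (sg A s)⁻¹ * h ∈ B j)}
  have hS2m : ∀ j, MeasurableSet (S2 j) := by
    intro j
    have : S2 j = ⋃ h : Gam A, ({x : Y | Fi i (h⁻¹ • x) x} ∩
        {x : Y | ¬ (h ∈ B j ∧ ∀ s : Ltr k, (sg A s)⁻¹ * h ∈ B j)}) := by
      ext x
      simp [S2]
    rw [this]
    exact MeasurableSet.iUnion fun h => (hM1 i h).inter (MeasurableSet.const _)
  have hS2a : Antitone S2 := by
    rintro j j' hjj x ⟨h, h1, h2⟩
    refine ⟨h, h1, fun h3 => h2 ⟨hBmono hjj h3.1, fun s => hBmono hjj (h3.2 s)⟩⟩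
  have hS2e : ∀ x, ∃ j, x ∉ S2 j := by
    intro x
    have hf1 : {h : Gam A | Fi i (h⁻¹ • x) x}.Finite := by
      refine Set.Finite.of_finite_image (f := fun h : Gam A => h⁻¹ • x)
        ((hfin i x).subset ?_) ?_
      · rintro y ⟨h, hh, rfl⟩
        exact (Fi i).symm hh
      · intro a _ b _ hab
        have hab' : a⁻¹ • x = b⁻¹ • x := hab
        have : (b * a⁻¹) • x = x := by
          rw [mul_smul, hab', smul_inv_smul]
        have h1 := hfree _ _ this
        rw [mul_inv_eq_one] at h1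
        exact h1.symm
    have hf2 : ({h : Gam A | Fi i (h⁻¹ • x) x} ∪ ⋃ s : Ltr k,
        (fun h => (sg A s)⁻¹ * h) '' {h : Gam A | Fi i (h⁻¹ • x) x}).Finite :=
      hf1.union (Set.finite_iUnion fun s => hf1.image _)
    obtain ⟨j, hj⟩ := hBfin _ hf2
    refine ⟨j, ?_⟩
    rintro ⟨h, h1, h2⟩
    apply h2
    refine ⟨hj h (Or.inl h1), fun s => hj _ (Or.inr ?_)⟩
    rw [Set.mem_iUnion]
    exact ⟨s, h, h1, rfl⟩
  obtain ⟨j, hj⟩ := small_of_inter (μ : Measure Y) S2 hS2m hS2a hS2e _ hεpos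
  -- the functions
  let c : Y → ℝ := fun x => (((B j).filter fun h => Fi i (h⁻¹ • x) x).card : ℝ)
  have hcm : Measurable c := by
    have : c = fun x => ∑ h ∈ B j, if Fi i (h⁻¹ • x) x then (1 : ℝ) else 0 := by
      ext x
      simp only [c, Finset.card_filter, Nat.cast_sum, Nat.cast_ite, Nat.cast_one, Nat.cast_zero]
    rw [this]
    exact Finset.measurable_fun_sum _ fun h _ =>
      Measurable.ite (hM1 i h) measurable_const measurable_const
  let f : Gam A → Y → ℝ := fun h x => if h ∈ B j ∧ Fi i (h⁻¹ • x) x then (c x)⁻¹ else 0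
  have hfm : ∀ h, Measurable (f h) := by
    intro h
    refine Measurable.ite ?_ hcm.inv measurable_const
    have : {x : Y | h ∈ B j ∧ Fi i (h⁻¹ • x) x} = {x : Y | h ∈ B j} ∩ {x | Fi i (h⁻¹ • x) x} := rfl
    rw [this]
    exact (MeasurableSet.const _).inter (hM1 i h)
  have hc0 : ∀ x, 0 ≤ c x := fun x => Nat.cast_nonneg _
  have hf0 : ∀ h x, 0 ≤ f h x := by
    intro h x
    simp only [f]
    split_ifs
    · exact inv_nonneg.2 (hc0 x)
    · exact le_refl _
  have hfB : ∀ h x, f h x ≠ 0 → h ∈ B j := by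
    intro h x hne
    by_contra hh
    apply hne
    simp only [f]
    rw [if_neg (fun h1 => hh h1.1)]
  have hsum1 : ∀ x (T : Finset (Gam A)), ∑ h ∈ T, f h x ≤ 1 := by
    intro x T
    simp only [f]
    rw [← Finset.sum_filter, Finset.sum_const, nsmul_eq_mul]
    have h1 : ((T.filter fun h => h ∈ B j ∧ Fi i (h⁻¹ • x) x).card : ℝ) ≤ c x := by
      simp only [c]
      exact_mod_cast Finset.card_le_card (fun h hh => by
        rw [Finset.mem_filter] at hh ⊢
        exact hh.2)
    calc _ ≤ c x * (c x)⁻¹ := mul_le_mul_of_nonneg_right h1 (inv_nonneg.2 (hc0 x))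
      _ ≤ 1 := mul_inv_le_one
  have hf1 : ∀ h x, f h x ≤ 1 := by
    intro h x
    have := hsum1 x {h}
    simpa using this
  let B' : Finset (Gam A) := B j ∪ Finset.univ.biUnion fun s : Ltr k =>
    (B j).image fun h => sg A s * h
  have hBB : B j ⊆ B' := Finset.subset_union_left
  have hsB : ∀ s : Ltr k, ∀ b ∈ B j, sg A s * b ∈ B' := by
    intro s b hb
    apply Finset.mem_union_right
    rw [Finset.mem_biUnion]
    exact ⟨s, Finset.mem_univ _, Finset.mem_image_of_mem _ hb⟩
  have hmain := limit_meas A μ hμ (B j) B' hBB hsB f hfm hf0 hf1 hfB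
  -- the upper bound
  have hbd : ∀ x, Psi A B' f x ≤ C := by
    intro x
    unfold Psi
    have h1 : ∀ s : Ltr k, ∑ h ∈ B', |f h x - f ((sg A s)⁻¹ * h) ((sg A s)⁻¹ • x)| ≤ 2 := by
      intro s
      have h2 : ∑ h ∈ B', |f h x - f ((sg A s)⁻¹ * h) ((sg A s)⁻¹ • x)| ≤
          ∑ h ∈ B', (f h x + f ((sg A s)⁻¹ * h) ((sg A s)⁻¹ • x)) := by
        refine Finset.sum_le_sum fun h _ => ?_
        have := hf0 h x
        have := hf0 ((sg A s)⁻¹ * h) ((sg A s)⁻¹ • x)
        rw [abs_le]
        constructor <;> linarith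
      rw [Finset.sum_add_distrib] at h2
      have h3 := hsum1 x B'
      have h4 : ∑ h ∈ B', f ((sg A s)⁻¹ * h) ((sg A s)⁻¹ • x) ≤ 1 := by
        have := hsum1 ((sg A s)⁻¹ • x) (B'.image fun h => (sg A s)⁻¹ * h)
        rwa [Finset.sum_image] at this
        intro a _ b _ hab
        exact mul_left_cancel hab
      linarith
    have h5 : (∑ s : Ltr k, ∑ h ∈ B', |f h x - f ((sg A s)⁻¹ * h) ((sg A s)⁻¹ • x)|) ≤
        ∑ s : Ltr k, (2 : ℝ) := Finset.sum_le_sum fun s _ => h1 s
    rw [Finset.sum_const, Finset.card_univ, nsmul_eq_mul] at h5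
    have h6 : |∑ h ∈ B', f h x - 1| ≤ 1 := by
      have h7 := hsum1 x B'
      have h8 : 0 ≤ ∑ h ∈ B', f h x := Finset.sum_nonneg fun h _ => hf0 h x
      rw [abs_le]
      constructor <;> linarith
    simp only [C]
    linarith
  -- the vanishing
  have hvan : ∀ x, x ∉ S1 i → x ∉ S2 j → Psi A B' f x = 0 := by
    intro x h1 h2
    have h1' : ∀ s : Ltr k, Fi i x ((sg A s)⁻¹ • x) := by
      intro s
      by_contra h3
      exact h1 ⟨s, h3⟩
    have h2' : ∀ h : Gam A, Fi i (h⁻¹ • x) x → h ∈ B j ∧ ∀ s : Ltr k, (sg A s)⁻¹ * h ∈ B j := by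
      intro h h3
      by_contra h4
      exact h2 ⟨h, h3, h4⟩
    have hact : ∀ (s : Ltr k) (h : Gam A), ((sg A s)⁻¹ * h)⁻¹ • (sg A s)⁻¹ • x = h⁻¹ • x := by
      intro s h
      rw [smul_smul]
      congr 1
      group
    have hiff : ∀ (s : Ltr k) (h : Gam A), ((sg A s)⁻¹ * h ∈ B j ∧
        Fi i (((sg A s)⁻¹ * h)⁻¹ • (sg A s)⁻¹ • x) ((sg A s)⁻¹ • x)) ↔
        (h ∈ B j ∧ Fi i (h⁻¹ • x) x) := by
      intro s h
      rw [hact]
      constructor
      · rintro ⟨_, h4⟩
        have h5 : Fi i (h⁻¹ • x) x := (Fi i).trans h4 ((Fi i).symm (h1' s))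
        exact ⟨(h2' h h5).1, h5⟩
      · rintro ⟨_, h4⟩
        exact ⟨(h2' h h4).2 s, (Fi i).trans h4 (h1' s)⟩
    have hcc : ∀ s : Ltr k, c ((sg A s)⁻¹ • x) = c x := by
      intro s
      simp only [c]
      congr 1
      symm
      apply Finset.card_bij (fun h _ => (sg A s)⁻¹ * h)
      · intro h hh
        rw [Finset.mem_filter] at hh ⊢
        exact (hiff s h).2 hh
      · intro a _ b _ hab
        exact mul_left_cancel hab
      · intro b hb
        rw [Finset.mem_filter] at hb
        have hb' := (hiff s (sg A s * b))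
        rw [inv_mul_cancel_left] at hb'
        exact ⟨sg A s * b, Finset.mem_filter.2 (hb'.1 hb), by rw [inv_mul_cancel_left]⟩
    have hff : ∀ (s : Ltr k) (h : Gam A), f ((sg A s)⁻¹ * h) ((sg A s)⁻¹ • x) = f h x := by
      intro s h
      simp only [f]
      rw [hcc]
      by_cases h3 : h ∈ B j ∧ Fi i (h⁻¹ • x) x
      · rw [if_pos h3, if_pos ((hiff s h).2 h3)]
      · rw [if_neg h3, if_neg (fun h4 => h3 ((hiff s h).1 h4))]
    have hone : ∑ h ∈ B', f h x = 1 := by
      have h3 : ∑ h ∈ B', f h x = ∑ h ∈ B j, f h x := by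
        symm
        apply Finset.sum_subset hBB
        intro h _ hh
        by_contra h4
        exact hh (hfB h x h4)
      rw [h3]
      simp only [f]
      rw [← Finset.sum_filter, Finset.sum_const, nsmul_eq_mul]
      have h4 : ((B j).filter fun h => h ∈ B j ∧ Fi i (h⁻¹ • x) x) =
          (B j).filter fun h => Fi i (h⁻¹ • x) x := by
        apply Finset.filter_congr
        intro h hh
        simp [hh]
      rw [h4]
      show c x * (c x)⁻¹ = 1
      apply mul_inv_cancel₀
      have h5 : (1 : Gam A) ∈ (B j).filter fun h => Fi i (h⁻¹ • x) x := by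
        have h6 : Fi i ((1 : Gam A)⁻¹ • x) x := by
          rw [inv_one, one_smul]
        exact Finset.mem_filter.2 ⟨(h2' 1 h6).1, h6⟩
      have h7 := Finset.card_pos.2 ⟨_, h5⟩
      simp only [c]
      exact_mod_cast h7.ne'
    unfold Psi
    rw [hone, sub_self, abs_zero, mul_zero, add_zero]
    apply Finset.sum_eq_zero
    intro s _
    apply Finset.sum_eq_zero
    intro h _
    rw [hff, sub_self, abs_zero]
  -- the integral
  have hle : ∀ x, Psi A B' f x ≤ (S1 i ∪ S2 j).indicator (fun _ => C) x := by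
    intro x
    by_cases hx : x ∈ S1 i ∪ S2 j
    · rw [Set.indicator_of_mem hx]
      exact hbd x
    · rw [Set.indicator_of_notMem hx]
      rw [hvan x (fun h => hx (Or.inl h)) (fun h => hx (Or.inr h))]
  have hms : MeasurableSet (S1 i ∪ S2 j) := (hS1m i).union (hS2m j)
  have hPf : Integrable (Psi A B' f) (μ : Measure Y) := by
    obtain ⟨C, hC⟩ := Psi_bdd A B' f hf0 hf1
    exact Integrable.of_bound (Psi_meas A B' f hfm).aestronglyMeasurable C (ae_of_all _ hC)
  have hint : ∫ x, Psi A B' f x ∂(μ : Measure Y) ≤ (μ : Measure Y).real (S1 i ∪ S2 j) * C := by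
    refine (integral_mono hPf ((integrable_const C).indicator hms) hle).trans ?_
    rw [integral_indicator_const _ hms, smul_eq_mul]
  have hun2 : (μ : Measure Y).real (S1 i ∪ S2 j) ≤ 9 / (40 * C) + 9 / (40 * C) := by
    refine (measureReal_union_le _ _).trans ?_
    linarith
  have h9 : (9 / (40 * C) + 9 / (40 * C)) * C = 9 / 20 := by
    field_simp
    norm_num
  have h10 : (μ : Measure Y).real (S1 i ∪ S2 j) * C ≤ 9 / 20 := by
    rw [← h9]
    exact mul_le_mul_of_nonneg_right hun2 hC.le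
  linarith

end

end Pool.Agent.H63ne
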