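import Pool.Agent.H63ne.Gen
import Pool.Agent.H63ne.NotHyp
import Pool.Agent.Y269.EG.Lab
import Pool.Agent.Y269.EG.ESC
import Pool.Agent.Y302.EG.Ros
import Pool.Agent.Y325.EG.Cf
import Pool.Agent.Y688.EG.Cw
import Pool.Agent.Y993.EG.Double
import Pool.Agent.Y658.EG.Good2
import Pool.Agent.Y302.EG.Seq
import Mathlib.GroupTheory.Finiteness

set_option autoImplicit false
set_option linter.unusedSectionVars false
set_option linter.unusedVariables false
set_option linter.style.haveILetI false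

/-!
# No nonempty free subshift of the group is hyperfinite
-/

namespace Pool.Agent.H63ne

open Pool.Agent.Y269.EG Pool.Agent.Y375.EG TopologicalSpace Topology MeasureTheory

theorem seqA : S_SEQ := Pool.Agent.Y302.EG.seq_of (lab_of Pool.Agent.Y269.EG.ESC.es
  Pool.Agent.Y302.EG.ros Pool.Agent.Y325.EG.Cf.cf Pool.Agent.Y688.EG.cw Pool.Agent.Y993.EG.cd
  Pool.Agent.Y658.EG.togood)

variable {k : ℕ} (A : Fam k)

theorem gam_fg : Group.FG (Gam A) := by
  have h1 : Group.FG (F k) := inferInstance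
  exact Group.fg_of_surjective (QuotientGroup.mk'_surjective (NA A))

theorem gam_infinite : Infinite (Gam A) := by
  by_contra h
  rw [not_infinite_iff_finite] at h
  letI : TopologicalSpace (Gam A) := ⊥
  haveI : DiscreteTopology (Gam A) := ⟨rfl⟩
  letI : MeasurableSpace (Gam A) := borel _
  haveI : BorelSpace (Gam A) := ⟨rfl⟩
  haveI : SecondCountableTopology (Gam A) := inferInstance
  haveI : ContinuousConstSMul (Gam A) (Gam A) := ⟨fun _ => continuous_of_discreteTopology⟩
  refine not_hyp A (Y := Gam A) ?_ (fun _ => ⊤) (fun _ _ _ => le_refl _) ?_ ?_ ?_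
  · intro γ x hx
    exact mul_eq_right.1 hx
  · intro i
    exact MeasurableSet.const _
  · intro i x
    exact Set.toFinite _
  · intro x γ
    exact ⟨0, trivial⟩

/-- the shift action on a subshift -/
@[reducible] def actY {Γ : Type} [Group Γ] (Y : Sh Γ) : MulAction Γ Y.1 where
  smul γ x := ⟨shift γ x, Y.2 γ x x.2⟩
  one_smul x := Subtype.ext (shift_one _)
  mul_smul a b x := Subtype.ext (shift_mul a b _)

theorem not_hyperfinite (Y : Sh (Gam A)) (hne : (Y.1 : Set (ShiftSpace (Gam A))).Nonempty)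
    (hfree : ∀ γ : Gam A, γ ≠ 1 → ∀ x ∈ Y.1, shift γ x ≠ x) : ¬ IsHyperfinite Y := by
  rintro ⟨Fi, hmono, hmeas, hfin, hun⟩
  letI := actY Y
  letI : MeasurableSpace Y.1 := borel _
  haveI : BorelSpace Y.1 := ⟨rfl⟩
  haveI : CompactSpace Y.1 := isCompact_iff_compactSpace.1 Y.1.isCompact
  haveI : Nonempty Y.1 := hne.to_subtype
  haveI : SecondCountableTopology Y.1 := by
    have : SecondCountableTopology (ShiftSpace (Gam A)) := inferInstance
    exact IsInducing.subtypeVal.secondCountableTopology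
  haveI : ContinuousConstSMul (Gam A) Y.1 := ⟨fun γ =>
    Continuous.subtype_mk ((shift_cont γ).comp continuous_subtype_val) _⟩
  refine not_hyp A (Y := Y.1) ?_ Fi hmono ?_ hfin ?_
  · intro γ x hx
    by_contra h
    exact hfree γ h x x.2 (congrArg Subtype.val hx)
  · intro i
    have h1 := hmeas i
    unfold IsBorelEquiv at h1
    rwa [← BorelSpace.measurable_eq (α := Y.1 × Y.1)] at h1
  · intro x γ
    exact (hun x (γ • x)).1 ⟨γ, rfl⟩

theorem nonempty_iff {Γ : Type} [Group Γ] (Y : Sh Γ) :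
    Y ∈ ShNonempty Γ ↔ (Y.1 : Set (ShiftSpace Γ)).Nonempty := by
  show Y.1 ≠ ⊥ ↔ _
  rw [Set.nonempty_iff_ne_empty, ← Compacts.coe_bot]
  exact not_congr SetLike.coe_injective.eq_iff.symm

theorem final : ¬ IsComeagerSh (ShHyp (Gam A)) ∧
    IsComeagerSh (ShNonempty (Gam A) ∩ ShHyp (Gam A))ᶜ := by
  have hG := free_generic (Γ := Gam A)
  constructor
  · intro hH
    have h1 := Filter.inter_mem hH hG
    have h2 := dense_of_mem_residual h1
    have h3 : IsOpen {Y : Sh (Gam A) | (Y.1 : Set (ShiftSpace (Gam A))).Nonempty} := by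
      have h4 := (Compacts.isOpen_inter_nonempty_of_isOpen
        (isOpen_univ (X := ShiftSpace (Gam A)))).preimage
        (continuous_subtype_val (p := fun Y : Compacts (ShiftSpace (Gam A)) =>
          ∀ γ : Gam A, ∀ x ∈ Y, shift γ x ∈ Y))
      have h6 : {Y : Sh (Gam A) | (Y.1 : Set (ShiftSpace (Gam A))).Nonempty} =
          (Subtype.val ⁻¹' {K : Compacts (ShiftSpace (Gam A)) |
            (↑K ∩ (Set.univ : Set (ShiftSpace (Gam A)))).Nonempty} : Set {Y : Compacts
            (ShiftSpace (Gam A)) // ∀ γ : Gam A, ∀ x ∈ Y, shift γ x ∈ Y}) := by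
        apply Set.ext
        intro Y
        show (Y.1 : Set (ShiftSpace (Gam A))).Nonempty ↔
          ((Y.1 : Set (ShiftSpace (Gam A))) ∩ Set.univ).Nonempty
        rw [Set.inter_univ]
      rw [h6]
      exact h4
    have h5 : {Y : Sh (Gam A) | (Y.1 : Set (ShiftSpace (Gam A))).Nonempty}.Nonempty :=
      ⟨⟨⊤, fun _ _ _ => trivial⟩, ⟨fun _ _ => 0, trivial⟩⟩
    obtain ⟨Y, hY1, hY2, hY3⟩ := h2.inter_open_nonempty _ h3 h5
    exact not_hyperfinite A Y hY1 hY3 hY2
  · refine Filter.mem_of_superset hG ?_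
    intro Y hY hY2
    exact not_hyperfinite A Y ((nonempty_iff Y).1 hY2.1) hY hY2.2

end Pool.Agent.H63ne
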