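import Pool.Agent.H63ne.Defs
import Mathlib.Topology.Baire.LocallyCompactRegular
import Mathlib.Topology.Compactification.OnePoint.Basic
import Mathlib.Topology.UnitInterval
import Mathlib.Topology.Instances.Nat
import Mathlib.Topology.GDelta.Basic

set_option autoImplicit false
set_option linter.unusedSectionVars false

/-!
# The space of subshifts: the generic subshift is free
-/

namespace Pool.Agent.H63ne

open TopologicalSpace Topology Set

section
variable {Γ : Type} [Group Γ]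

instance (Γ : Type) : T2Space (ShiftSpace Γ) :=
  inferInstanceAs (T2Space (Γ → ℕ → unitInterval))

instance (Γ : Type) : CompactSpace (ShiftSpace Γ) :=
  inferInstanceAs (CompactSpace (Γ → ℕ → unitInterval))

instance (Γ : Type) [Countable Γ] : SecondCountableTopology (ShiftSpace Γ) :=
  inferInstanceAs (SecondCountableTopology (Γ → ℕ → unitInterval))

instance (Γ : Type) [Group Γ] : T2Space (Sh Γ) :=
  inferInstanceAs (T2Space {Y : Compacts (ShiftSpace Γ) // ∀ γ : Γ, ∀ x ∈ Y, shift γ x ∈ Y})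

theorem shift_cont (γ : Γ) : Continuous (shift γ) := by
  show Continuous fun (x : Γ → ℕ → unitInterval) (δ : Γ) => x (γ⁻¹ * δ)
  fun_prop

theorem shift_one (x : ShiftSpace Γ) : shift 1 x = x := by
  funext δ
  simp [shift]

theorem shift_mul (a b : Γ) (x : ShiftSpace Γ) : shift (a * b) x = shift a (shift b x) := by
  funext δ
  simp [shift, mul_assoc]

theorem inv_iff (Y : Compacts (ShiftSpace Γ)) : (∀ γ : Γ, ∀ x ∈ Y, shift γ x ∈ Y) ↔
    ∀ γ : Γ, Y.map (shift γ) (shift_cont γ) = Y := by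
  constructor
  · intro h γ
    apply le_antisymm
    · rintro x ⟨y, hy, rfl⟩
      exact h γ y hy
    · intro x hx
      refine ⟨shift γ⁻¹ x, h γ⁻¹ x hx, ?_⟩
      rw [← shift_mul, mul_inv_cancel, shift_one]
  · intro h γ x hx
    rw [← h γ]
    exact ⟨x, hx, rfl⟩

theorem Sh_closed : IsClosed {Y : Compacts (ShiftSpace Γ) | ∀ γ : Γ, ∀ x ∈ Y, shift γ x ∈ Y} := by
  have : {Y : Compacts (ShiftSpace Γ) | ∀ γ : Γ, ∀ x ∈ Y, shift γ x ∈ Y} =
      ⋂ γ : Γ, {Y | Y.map (shift γ) (shift_cont γ) = Y} := by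
    ext Y
    rw [mem_iInter]
    exact inv_iff Y
  rw [this]
  exact isClosed_iInter fun γ => isClosed_eq (shift_cont γ).compacts_map continuous_id

instance : CompactSpace (Sh Γ) := isCompact_iff_compactSpace.1 (Sh_closed (Γ := Γ)).isCompact

theorem exists_col [Countable Γ] (γ : Γ) (hγ : γ ≠ 1) :
    ∃ c : Γ → Fin 3, ∀ δ, c δ ≠ c (δ * γ) := by
  classical
  obtain ⟨e, he⟩ := exists_injective_nat Γ
  have hpick : ∀ a b : Fin 3, ∃ c : Fin 3, c ≠ a ∧ c ≠ b := by decide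
  choose pick hp1 hp2 using hpick
  let step : ∀ δ : Γ, (∀ δ', e δ' < e δ → Fin 3) → Fin 3 := fun δ ih =>
    pick (if h : e (δ * γ) < e δ then ih (δ * γ) h else 0)
      (if h : e (δ * γ⁻¹) < e δ then ih (δ * γ⁻¹) h else 0)
  let c : Γ → Fin 3 := WellFounded.fix (measure e).wf step
  have hc : ∀ δ, c δ = step δ (fun δ' _ => c δ') := fun δ =>
    WellFounded.fix_eq (measure e).wf step δ
  refine ⟨c, fun δ => ?_⟩
  have hne : e δ ≠ e (δ * γ) := by
    intro h
    have := he h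
    exact hγ (by simpa using this.symm)
  rcases lt_or_gt_of_ne hne with h | h
  · -- the colour of `δ * γ` is chosen later
    rw [hc (δ * γ)]
    have h' : e (δ * γ * γ⁻¹) < e (δ * γ) := by rwa [mul_inv_cancel_right]
    simp only [step]
    rw [dif_pos h']
    have := hp2 (if h : e (δ * γ * γ) < e (δ * γ) then c (δ * γ * γ) else 0) (c (δ * γ * γ⁻¹))
    rw [mul_inv_cancel_right] at this ⊢
    exact this.symm
  · rw [hc δ]
    simp only [step]
    rw [dif_pos h]
    exact hp1 _ _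

/-- the 3-colourings of the graph of `γ` -/
def KK (γ : Γ) : Set (ShiftSpace Γ) := {z | ∀ δ i, (1 : ℝ) / 2 ≤ |(z δ i : ℝ) - (z (δ * γ) i : ℝ)|}

theorem KK_closed (γ : Γ) : IsClosed (KK γ) := by
  have : KK γ = ⋂ δ : Γ, ⋂ i : ℕ,
      {z : ShiftSpace Γ | (1 : ℝ) / 2 ≤ |(z δ i : ℝ) - (z (δ * γ) i : ℝ)|} := by
    ext z
    simp [KK]
  rw [this]
  refine isClosed_iInter fun δ => isClosed_iInter fun i => ?_
  exact isClosed_le continuous_const (by fun_prop)

theorem KK_inv (γ β : Γ) (z : ShiftSpace Γ) (hz : z ∈ KK γ) : shift β z ∈ KK γ := by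
  intro δ i
  have := hz (β⁻¹ * δ) i
  simpa [shift, mul_assoc] using this

theorem KK_nonempty [Countable Γ] (γ : Γ) (hγ : γ ≠ 1) : (KK γ).Nonempty := by
  obtain ⟨c, hc⟩ := exists_col γ hγ
  refine ⟨fun δ _ => ⟨((c δ : ℕ) : ℝ) / 2, ?_, ?_⟩, ?_⟩
  · positivity
  · have h1 : (c δ : ℕ) ≤ 2 := by omega
    have : ((c δ : ℕ) : ℝ) ≤ 2 := by exact_mod_cast h1
    linarith
  · intro δ i
    have h1 := hc δ
    show (1 : ℝ) / 2 ≤ |((c δ : ℕ) : ℝ) / 2 - ((c (δ * γ) : ℕ) : ℝ) / 2|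
    generalize c δ = a at *
    generalize c (δ * γ) = b at *
    fin_cases a <;> fin_cases b <;> first | exact absurd rfl h1 | norm_num

theorem KK_ne (γ : Γ) (z : ShiftSpace Γ) (hz : z ∈ KK γ) (i : ℕ)
    (h : ∀ δ, z (γ⁻¹ * δ) i = z δ i) : False := by
  have h1 := hz γ⁻¹ i
  have h2 := h 1
  rw [mul_one] at h2
  rw [inv_mul_cancel, h2, sub_self, abs_zero] at h1
  norm_num at h1

/-- replacing the coordinates from `M` on -/
noncomputable def TT (M : OnePoint ℕ) (p : ShiftSpace Γ × ShiftSpace Γ) : ShiftSpace Γ := by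
  classical
  exact fun δ i => if M ∈ (fun m : ℕ => (m : OnePoint ℕ)) '' Set.Iic i then p.2 δ i else p.1 δ i

theorem clop (i : ℕ) : IsClopen ((fun m : ℕ => (m : OnePoint ℕ)) '' Set.Iic i) := by
  constructor
  · exact ((Set.finite_Iic i).image _).isClosed
  · exact OnePoint.isOpenEmbedding_coe.isOpenMap _ (isOpen_discrete _)

theorem TT_cont : Continuous (Function.uncurry (TT (Γ := Γ))) := by
  classical
  refine continuous_pi fun δ => continuous_pi fun i => ?_
  have h1 : IsClopen {q : OnePoint ℕ × (ShiftSpace Γ × ShiftSpace Γ) |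
      q.1 ∈ (fun m : ℕ => (m : OnePoint ℕ)) '' Set.Iic i} := (clop i).preimage continuous_fst
  show Continuous fun q : OnePoint ℕ × (ShiftSpace Γ × ShiftSpace Γ) =>
    if q.1 ∈ (fun m : ℕ => (m : OnePoint ℕ)) '' Set.Iic i then q.2.2 δ i else q.2.1 δ i
  refine Continuous.if ?_ (by fun_prop) (by fun_prop)
  intro a ha
  have h2 : frontier {q : OnePoint ℕ × (ShiftSpace Γ × ShiftSpace Γ) |
      q.1 ∈ (fun m : ℕ => (m : OnePoint ℕ)) '' Set.Iic i} = ∅ := h1.frontier_eq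
  rw [h2] at ha
  exact absurd ha (Set.notMem_empty a)

theorem TT_shift (M : OnePoint ℕ) (γ : Γ) (p : ShiftSpace Γ × ShiftSpace Γ) :
    shift γ (TT M p) = TT M (shift γ p.1, shift γ p.2) := rfl

theorem TT_infty (p : ShiftSpace Γ × ShiftSpace Γ) : TT OnePoint.infty p = p.1 := by
  classical
  funext δ i
  simp only [TT]
  rw [if_neg]
  rintro ⟨m, _, hm⟩
  exact OnePoint.coe_ne_infty m hm

theorem TT_coe (M : ℕ) (p : ShiftSpace Γ × ShiftSpace Γ) (δ : Γ) : TT (M : OnePoint ℕ) p δ M = p.2 δ M := by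
  classical
  simp only [TT]
  rw [if_pos]
  exact ⟨M, le_refl M, rfl⟩

/-- the subshifts without points fixed by `γ` -/
def UU (γ : Γ) : Set (Sh Γ) := {Y | ∀ x ∈ Y.1, shift γ x ≠ x}

theorem UU_open (γ : Γ) : IsOpen (UU γ) := by
  have h1 : IsOpen {x : ShiftSpace Γ | shift γ x ≠ x} := by
    have : {x : ShiftSpace Γ | shift γ x ≠ x} = {x : ShiftSpace Γ | shift γ x = x}ᶜ := rfl
    rw [this]
    exact (isClosed_eq (shift_cont γ) continuous_id).isOpen_compl
  exact (Compacts.isOpen_subsets_of_isOpen h1).preimage continuous_subtype_val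

theorem UU_dense [Countable Γ] (γ : Γ) (hγ : γ ≠ 1) : Dense (UU γ) := by
  intro Y
  let K : Compacts (ShiftSpace Γ) := ⟨KK γ, (KK_closed γ).isCompact⟩
  have hKc : ∀ z, z ∈ K ↔ z ∈ KK γ := fun z => Iff.rfl
  have hc : ∀ M : OnePoint ℕ, Continuous (TT (Γ := Γ) M) := fun M =>
    TT_cont.comp (Continuous.prodMk_right M)
  let G : OnePoint ℕ → Sh Γ := fun M => ⟨(Y.1 ×ˢ K).map (TT M) (hc M), by
    rintro β x ⟨⟨a, b⟩, ⟨ha, hb⟩, rfl⟩
    exact ⟨(shift β a, shift β b), ⟨Y.2 β a ha, KK_inv γ β b hb⟩, (TT_shift M β (a, b)).symm⟩⟩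
  have hG : Continuous G := by
    refine Continuous.subtype_mk ?_ _
    exact Continuous.compacts_map' continuous_const TT_cont
  have hinf : G OnePoint.infty = Y := by
    apply Subtype.ext
    apply le_antisymm
    · rintro x ⟨⟨a, b⟩, ⟨ha, hb⟩, rfl⟩
      rw [TT_infty]
      exact ha
    · intro x hx
      obtain ⟨z, hz⟩ := KK_nonempty γ hγ
      exact ⟨(x, z), ⟨hx, hz⟩, TT_infty _⟩
  have hfin : ∀ M : ℕ, G (M : OnePoint ℕ) ∈ UU γ := by
    rintro M x ⟨⟨a, b⟩, ⟨ha, hb⟩, rfl⟩ hfix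
    refine KK_ne γ b hb M fun δ => ?_
    have h1 := congrFun (congrFun hfix δ) M
    rw [TT_coe] at h1
    rw [TT_shift, TT_coe] at h1
    exact h1
  rw [← hinf]
  refine map_mem_closure hG (s := Set.range ((↑) : ℕ → OnePoint ℕ)) ?_ ?_
  · exact OnePoint.denseRange_coe _
  · rintro _ ⟨M, rfl⟩
    exact hfin M

/-- the generic subshift is free -/
theorem free_generic [Countable Γ] :
    {Y : Sh Γ | ∀ γ : Γ, γ ≠ 1 → ∀ x ∈ Y.1, shift γ x ≠ x} ∈ residual (Sh Γ) := by
  have h1 : {Y : Sh Γ | ∀ γ : Γ, γ ≠ 1 → ∀ x ∈ Y.1, shift γ x ≠ x} =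
      ⋂ γ : Γ, {Y : Sh Γ | γ ≠ 1 → Y ∈ UU γ} := by
    ext Y
    simp [UU]
  rw [h1, countable_iInter_mem]
  intro γ
  by_cases hγ : γ = 1
  · have : {Y : Sh Γ | γ ≠ 1 → Y ∈ UU γ} = Set.univ := by
      ext Y
      simp [hγ]
    rw [this]
    exact Filter.univ_mem
  · have : {Y : Sh Γ | γ ≠ 1 → Y ∈ UU γ} = UU γ := by
      ext Y
      simp [hγ]
    rw [this]
    exact residual_of_dense_open (UU_open γ) (UU_dense γ hγ)

end

end Pool.Agent.H63ne
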