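import Pool.Agent.Y269.EG.TypC
import Pool.Agent.H63ne.FamGreen

set_option autoImplicit false

/-!
# The group of a sequence of labelled graphs, and the maps of the graphs to its Cayley graph
-/

namespace Pool.Agent.H63ne

open Pool.Agent.Y269.EG Pool.Agent.Y375.EG FreeGroup

variable {k : ℕ} (A : Fam k)

theorem Ht_conj (i : Idx k) (g x : F k) (hx : x ∈ Ht (A.Θ i.n) i.t) :
    g * x * g⁻¹ ∈ Ht (A.Θ i.n) (g * i.t) := by
  rw [mem_Ht] at hx ⊢
  have e : (g * i.t)⁻¹ * (g * x * g⁻¹) * (g * i.t) = i.t⁻¹ * x * i.t := by group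
  rw [e]
  exact hx

instance NA_normal : (NA A).Normal := by
  constructor
  intro x hx g
  have h1 : (NA A) ≤ (NA A).comap (MulAut.conj g).toMonoidHom := by
    refine iSup_le fun i => ?_
    intro y hy
    rw [Subgroup.mem_comap]
    show g * y * g⁻¹ ∈ NA A
    exact (le_iSup (fun j : Idx k => Ht (A.Θ j.n) j.t) (⟨i.n, g * i.t⟩ : Idx k))
      (Ht_conj A i g y hy)
  exact h1 hx

/-- the group -/
abbrev Gam : Type := F k ⧸ NA A

/-- closed paths are trivial -/
theorem closed_NA (n : ℕ) (v : (A.Θ n).V) (l : Wd k) (h : (A.Θ n).walk v l = some v) :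
    (FreeGroup.mk l : F k) ∈ NA A := by
  obtain ⟨p, hp⟩ := (A.good n).conn v
  have h1 : (A.Θ n).walk (A.Θ n).v0 (p ++ (l ++ invRev p)) = some (A.Θ n).v0 :=
    walk_append_of _ hp (walk_append_of _ h (walk_rev _ hp))
  have h2 : (FreeGroup.mk (p ++ (l ++ invRev p)) : F k) ∈ HH (A.Θ n) := E_mk (A.Θ n) h1
  have h3 : (FreeGroup.mk (p ++ (l ++ invRev p)) : F k) ∈ NA A := by
    refine (le_iSup (fun j : Idx k => Ht (A.Θ j.n) j.t) (⟨n, 1⟩ : Idx k)) ?_
    show _ ∈ Ht (A.Θ n) 1
    rw [mem_Ht]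
    simpa using h2
  have h4 : (FreeGroup.mk (p ++ (l ++ invRev p)) : F k) =
      FreeGroup.mk p * FreeGroup.mk l * (FreeGroup.mk p)⁻¹ := by
    rw [← mul_mk, ← mul_mk, inv_mk, mul_assoc]
  rw [h4] at h3
  have h5 := (NA_normal A).conj_mem _ h3 (FreeGroup.mk p)⁻¹
  have h6 : (FreeGroup.mk p : F k)⁻¹ * (FreeGroup.mk p * FreeGroup.mk l * (FreeGroup.mk p)⁻¹) *
      (FreeGroup.mk p)⁻¹⁻¹ = FreeGroup.mk l := by group
  rw [h6] at h5
  exact h5

theorem path_eqA (n : ℕ) (v w : (A.Θ n).V) (l m : Wd k)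
    (hl : (A.Θ n).walk v l = some w) (hm : (A.Θ n).walk v m = some w) :
    ((FreeGroup.mk l : F k) : Gam A) = ((FreeGroup.mk m : F k) : Gam A) := by
  rw [QuotientGroup.eq, inv_mk, mul_mk]
  exact closed_NA A n w _ (walk_append_of _ (walk_rev _ hl) hm)

/-- a word leading to `v` -/
noncomputable def wv (n : ℕ) (v : (A.Θ n).V) : Wd k := ((A.good n).conn v).choose

theorem wv_spec (n : ℕ) (v : (A.Θ n).V) : (A.Θ n).walk (A.Θ n).v0 (wv A n v) = some v :=
  ((A.good n).conn v).choose_spec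

/-- the map of the vertices to the group -/
noncomputable def ph (n : ℕ) (v : (A.Θ n).V) : Gam A := ((FreeGroup.mk (wv A n v) : F k) : Gam A)

theorem ph_walk (n : ℕ) {v w : (A.Θ n).V} {l : Wd k} (h : (A.Θ n).walk v l = some w) :
    ph A n w = ph A n v * ((FreeGroup.mk l : F k) : Gam A) := by
  unfold ph
  rw [← TypC.mk_append_q]
  exact path_eqA A n _ w _ _ (wv_spec A n w) (walk_append_of _ (wv_spec A n v) h)

/-- the image of a letter -/
def sg (s : Ltr k) : Gam A := ((FreeGroup.mk [s] : F k) : Gam A)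

theorem ph_step (n : ℕ) {v w : (A.Θ n).V} {s : Ltr k} (h : (A.Θ n).step v s = some w) :
    ph A n w = ph A n v * sg A s := by
  apply ph_walk A n
  rw [TypC.walk_single]
  exact h

/-- every element has a shortest representative -/
theorem exists_short (x : Gam A) (r : ℕ) (u : F k) (hu : (u : Gam A) = x) (hr : u.norm ≤ r) :
    ∃ u' : F k, (u' : Gam A) = x ∧ u'.norm ≤ r ∧ ∀ u'' : F k, (u'' : Gam A) = x →
      u'.norm ≤ u''.norm := by
  classical
  have hex : ∃ m : ℕ, ∃ u' : F k, (u' : Gam A) = x ∧ u'.norm = m := ⟨_, u, hu, rfl⟩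
  obtain ⟨u', h1, h2⟩ := Nat.find_spec hex
  refine ⟨u', h1, ?_, ?_⟩
  · rw [h2]
    exact (Nat.find_min' hex ⟨u, hu, rfl⟩).trans hr
  · intro u'' h3
    rw [h2]
    exact Nat.find_min' hex ⟨u'', h3, rfl⟩

theorem exists_walk (n : ℕ) (v w : (A.Θ n).V) : ∃ l, (A.Θ n).walk v l = some w :=
  ⟨_, walk_append_of _ (walk_rev _ (wv_spec A n v)) (wv_spec A n w)⟩

/-- shortest paths in the graph -/
theorem exists_geo (n : ℕ) (v w : (A.Θ n).V) : ∃ l, (A.Θ n).walk v l = some w ∧
    IsReduced l ∧ ∀ l', (A.Θ n).walk v l' = some w → l.length ≤ l'.length := by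
  classical
  have hex : ∃ m : ℕ, ∃ l, (A.Θ n).walk v l = some w ∧ l.length = m := by
    obtain ⟨l, hl⟩ := exists_walk A n v w
    exact ⟨_, l, hl, rfl⟩
  obtain ⟨l, h1, h2⟩ := Nat.find_spec hex
  have hmin : ∀ l', (A.Θ n).walk v l' = some w → l.length ≤ l'.length := by
    intro l' h3
    rw [h2]
    exact Nat.find_min' hex ⟨l', h3, rfl⟩
  refine ⟨l, h1, ?_, hmin⟩
  apply IsReduced.of_reduce_eq
  have h3 := hmin (reduce l) (walk_reduce _ h1)
  exact (Red.sublist (reduce.red (L := l))).eq_of_length_le h3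

/-- subpaths of shortest paths are shortest -/
theorem geo_sub (n : ℕ) {v w : (A.Θ n).V} {l : Wd k} (h1 : (A.Θ n).walk v l = some w)
    (h2 : ∀ l', (A.Θ n).walk v l' = some w → l.length ≤ l'.length) {P Q R : Wd k}
    (hl : l = P ++ Q ++ R) :
    ∃ a b, (A.Θ n).walk a Q = some b ∧ ∀ Q', (A.Θ n).walk a Q' = some b → Q.length ≤ Q'.length := by
  rw [hl] at h1
  obtain ⟨b, h3, h4⟩ := walk_append_some _ h1
  obtain ⟨a, h5, h6⟩ := walk_append_some _ h3
  refine ⟨a, b, h6, fun Q' hQ' => ?_⟩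
  have h7 := h2 (P ++ Q' ++ R) (walk_append_of _ (walk_append_of _ h5 hQ') h4)
  rw [hl] at h7
  simp only [List.length_append] at h7
  omega

/-- The main estimate: a shortest word of the group with a short common word. -/
theorem core (n r : ℕ) (hr : 3 * r < A.g n) {v w : (A.Θ n).V} {l : Wd k}
    (hl : (A.Θ n).walk v l = some w) (hgeo : ∀ l', (A.Θ n).walk v l' = some w →
      l.length ≤ l'.length) (u : F k) (hur : u.norm ≤ r)
    (humin : ∀ u'' : F k, (u'' : Gam A) = (u : Gam A) → u.norm ≤ u''.norm)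
    {p l' u' : Wd k} (hlp : l = p ++ l') (hup : u.toWord = p ++ u')
    {m : ℕ} {α β1 β2 δ ε : Wd k} {θ θ' : (A.Θ m).V}
    (h1 : ∃ a c, invRev l' = a ++ β1 ++ c) (h2 : ∃ a c, u' = a ++ β2 ++ c)
    (hβ : (A.Θ m).walk θ (β1 ++ β2) = some θ') (hε : (A.Θ m).walk θ ε = some θ')
    (hβr : IsReduced β1)
    (hε6 : 100 * ε.length ≤ 6 * A.g m) (hβ94 : 94 * A.g m ≤ 100 * (β1 ++ β2).length) : False := by
  obtain ⟨a, c, h1⟩ := h1
  obtain ⟨a', c', h2⟩ := h2
  rw [List.length_append] at hβ94
  obtain ⟨hg1000, h400, hM1⟩ := A.big m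
  obtain ⟨θ1, hθ1, hθ2⟩ := walk_append_some _ hβ
  -- the part of the word of the group
  have hb2 : β2.length ≤ β1.length + ε.length := by
    have e1 : ((FreeGroup.mk (β1 ++ β2) : F k) : Gam A) = ((FreeGroup.mk ε : F k) : Gam A) :=
      path_eqA A m θ θ' _ _ hβ hε
    have e2 : ((FreeGroup.mk β2 : F k) : Gam A) =
        ((FreeGroup.mk (invRev β1 ++ ε) : F k) : Gam A) := by
      rw [TypC.mk_append_q, TypC.mk_invRev_q, ← e1, TypC.mk_append_q]
      group
    have e3 : ((FreeGroup.mk (p ++ a' ++ (invRev β1 ++ ε) ++ c') : F k) : Gam A) =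
        (u : Gam A) := by
      have e4 : u = FreeGroup.mk (p ++ a' ++ β2 ++ c') := by
        rw [← mk_toWord (x := u), hup, h2]
        simp only [List.append_assoc]
      rw [e4, TypC.mk_append_q, TypC.mk_append_q, TypC.mk_append_q _ (p ++ a' ++ β2),
        TypC.mk_append_q _ (p ++ a'), ← e2]
    have e5 := humin _ e3
    have e6 : (FreeGroup.mk (p ++ a' ++ (invRev β1 ++ ε) ++ c') : F k).norm ≤
        (p ++ a' ++ (invRev β1 ++ ε) ++ c').length := norm_mk_le
    have e7 : u.norm = (p ++ a' ++ β2 ++ c').length := by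
      show u.toWord.length = _
      rw [hup, h2]
      simp only [List.append_assoc]
    rw [e7] at e5
    simp only [List.length_append, invRev_length] at e5 e6
    omega
  have hb2r : β2.length ≤ r := by
    have e7 : u.norm = (p ++ a' ++ β2 ++ c').length := by
      show u.toWord.length = _
      rw [hup, h2]
      simp only [List.append_assoc]
    rw [e7] at hur
    simp only [List.length_append] at hur
    omega
  -- the part of the path
  have hrev : (A.Θ n).walk w (invRev l) = some v := walk_rev _ hl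
  have hrevgeo : ∀ l'', (A.Θ n).walk w l'' = some v → (invRev l).length ≤ l''.length := by
    intro l'' h3
    have := hgeo _ (walk_rev _ h3)
    rw [invRev_length] at this ⊢
    exact this
  have hdec : invRev l = a ++ β1 ++ (c ++ invRev p) := by
    rw [hlp, invRev_append, h1]
    simp only [List.append_assoc]
  obtain ⟨x, y, hxy, hxygeo⟩ := geo_sub A n hrev hrevgeo hdec
  -- small
  have hsmall : ¬ β1.length < A.M m := by
    intro h
    omega
  push Not at hsmall
  rcases lt_trichotomy n m with hlt | heq | hgt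
  · have hM : A.M n ≤ A.M m := A.monoM hlt.le
    exact A.cross n m x θ β1 hlt hβr (hM.trans hsmall) (by rw [hxy]; rfl) (by rw [hθ1]; rfl)
  · subst heq
    have hxθ : x = θ := by
      by_contra hne
      have := (A.good n).piece x θ β1 hne hβr (by rw [hxy]; rfl) (by rw [hθ1]; rfl)
      omega
    subst hxθ
    have hyθ : y = θ1 := by
      rw [hxy] at hθ1
      exact Option.some.inj hθ1
    subst hyθ
    have h5 := hxygeo (ε ++ invRev β2) (walk_append_of _ hε (walk_rev _ hθ2))
    rw [List.length_append, invRev_length] at h5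
    omega
  · exact A.cross m n θ x β1 hgt hβr hsmall (by rw [hθ1]; rfl) (by rw [hxy]; rfl)

/-- At small scale, the maps of the graphs to the group are isometric. -/
theorem loc (n r : ℕ) (hr : 3 * r < A.g n) {v w : (A.Θ n).V} (u : F k) (hur : u.norm ≤ r)
    (h : ph A n w = ph A n v * (u : Gam A)) :
    ∃ l, (A.Θ n).walk v l = some w ∧ IsReduced l ∧ l.length ≤ r := by
  obtain ⟨u1, hu1, hu1r, hu1min⟩ := exists_short A (u : Gam A) r u rfl hur
  obtain ⟨l, hl, hlr, hlgeo⟩ := exists_geo A n v w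
  refine ⟨l, hl, hlr, ?_⟩
  have hlu : ((FreeGroup.mk l : F k) : Gam A) = (u1 : Gam A) := by
    have := ph_walk A n hl
    rw [h, ← hu1] at this
    exact (mul_left_cancel this).symm
  obtain ⟨p, l', u', hlp, hup, hne⟩ := TypC.common_prefix l u1.toWord
  have hl'r : IsReduced l' := by
    rw [hlp] at hlr
    exact red_right hlr
  have hu1red : IsReduced u1.toWord := isReduced_toWord
  have hu'r : IsReduced u' := by
    rw [hup] at hu1red
    exact red_right hu1red
  have hred : IsReduced (invRev l' ++ u') := TypC.junction hl'r hu'r hne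
  by_cases htriv : l' = []
  · rw [hlp, htriv, List.append_nil]
    have : u1.norm = u1.toWord.length := rfl
    rw [this, hup, List.length_append] at hu1r
    omega
  exfalso
  have hmem : (FreeGroup.mk (invRev l' ++ u') : F k) ∈ NA A := by
    rw [← QuotientGroup.eq_one_iff, TypC.mk_append_q, TypC.mk_invRev_q]
    have e1 : ((FreeGroup.mk l : F k) : Gam A) = ((FreeGroup.mk p : F k) : Gam A) *
        ((FreeGroup.mk l' : F k) : Gam A) := by
      rw [hlp, TypC.mk_append_q]
    have e2 : (u1 : Gam A) = ((FreeGroup.mk p : F k) : Gam A) *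
        ((FreeGroup.mk u' : F k) : Gam A) := by
      rw [← TypC.mk_append_q, ← hup, mk_toWord]
    rw [e1, e2] at hlu
    have e3 := mul_left_cancel hlu
    rw [e3, inv_mul_cancel]
  have hne1 : (FreeGroup.mk (invRev l' ++ u') : F k) ≠ 1 := by
    intro h0
    rw [← toWord_eq_nil_iff, toWord_mk, hred.reduce_eq] at h0
    have := congrArg List.length h0
    rw [List.length_append, invRev_length, List.length_nil] at this
    exact htriv (List.eq_nil_of_length_eq_zero (by omega))
  obtain ⟨m, α, β, δ, ε, θ, θ', hdec, hβ, hε, hεr, hε6, hβ94⟩ := greenF A _ hmem hne1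
  rw [toWord_mk, hred.reduce_eq] at hdec
  have hβr : IsReduced β := by
    rw [hdec] at hred
    exact red_right (red_left hred)
  have humin' : ∀ u'' : F k, (u'' : Gam A) = (u1 : Gam A) → u1.norm ≤ u''.norm := by
    intro u'' h3
    exact hu1min u'' (h3.trans hu1)
  rw [List.append_assoc] at hdec
  rcases List.append_eq_append_iff.1 hdec with ⟨a, h1, h2⟩ | ⟨a, h1, h2⟩
  · -- `α = invRev l' ++ a`, `u' = a ++ (β ++ δ)`
    exact core A n r hr hl hlgeo u1 hu1r humin' hlp hup (β1 := []) (β2 := β) (ε := ε) (α := α)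
      (δ := δ) ⟨[], invRev l', by simp⟩ ⟨a, δ, by rw [h2, List.append_assoc]⟩
      (by simpa using hβ) hε (by exact IsReduced.nil) hε6 (by simpa using hβ94)
  · -- `invRev l' = α ++ a`, `β ++ δ = a ++ u'`
    rcases List.append_eq_append_iff.1 h2 with ⟨b, h3, h4⟩ | ⟨b, h3, h4⟩
    · -- `a = β ++ b`, `δ = b ++ u'`
      exact core A n r hr hl hlgeo u1 hu1r humin' hlp hup (β1 := β) (β2 := []) (ε := ε) (α := α)
        (δ := δ) ⟨α, b, by rw [h1, h3, List.append_assoc]⟩ ⟨[], u', by simp⟩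
        (by simpa using hβ) hε hβr hε6 (by simpa using hβ94)
    · -- `β = a ++ b`, `u' = b ++ δ`
      refine core A n r hr hl hlgeo u1 hu1r humin' hlp hup (β1 := a) (β2 := b) (ε := ε) (α := α)
        (δ := δ) ⟨α, [], by rw [h1, List.append_nil]⟩ ⟨[], δ, by rw [h4]; simp⟩
        (by rw [← h3]; exact hβ) hε ?_ hε6 (by rw [← h3]; exact hβ94)
      rw [h3] at hβr
      exact red_left hβr

end Pool.Agent.H63ne
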