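import Pool.Agent.H63ne.Comb
import Mathlib.MeasureTheory.Measure.Prokhorov
import Mathlib.MeasureTheory.Function.ContinuousMapDense
import Mathlib.MeasureTheory.Measure.DiracProba

set_option autoImplicit false
set_option linter.unusedSectionVars false
set_option linter.unusedVariables false

/-!
# Free actions of the group on compact spaces are not hyperfinite
-/

namespace Pool.Agent.H63ne

open Pool.Agent.Y269.EG Pool.Agent.Y375.EG FreeGroup MeasureTheory Filter Topology
open scoped BoundedContinuousFunction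

variable {k : ℕ} (A : Fam k)

section
variable {Y : Type*} [MulAction (Gam A) Y] [TopologicalSpace Y] [CompactSpace Y] [T2Space Y]
  [SecondCountableTopology Y] [MeasurableSpace Y] [BorelSpace Y]
  [ContinuousConstSMul (Gam A) Y]

theorem Psi_cont (B' : Finset (Gam A)) (f : Gam A → Y → ℝ) (hf : ∀ h, Continuous (f h)) :
    Continuous (Psi A B' f) := by
  unfold Psi
  have h1 : ∀ s : Ltr k, Continuous fun x : Y => (sg A s)⁻¹ • x := fun s =>
    continuous_const_smul _
  have h2 : ∀ s h, Continuous fun x : Y => f h ((sg A s)⁻¹ • x) := fun s h =>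
    (hf h).comp (h1 s)
  refine Continuous.add ?_ ?_
  · refine continuous_finsetSum _ fun s _ => continuous_finsetSum _ fun h _ => ?_
    exact ((hf h).sub (h2 s _)).abs
  · refine Continuous.mul continuous_const (Continuous.abs (Continuous.sub ?_ continuous_const))
    exact continuous_finsetSum _ fun h _ => hf h

theorem Psi_meas (B' : Finset (Gam A)) (f : Gam A → Y → ℝ) (hf : ∀ h, Measurable (f h)) :
    Measurable (Psi A B' f) := by
  unfold Psi
  have h1 : ∀ s : Ltr k, Measurable fun x : Y => (sg A s)⁻¹ • x := fun s =>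
    (continuous_const_smul _).measurable
  have h2 : ∀ s h, Measurable fun x : Y => f h ((sg A s)⁻¹ • x) := fun s h =>
    (hf h).comp (h1 s)
  refine Measurable.add ?_ ?_
  · refine Finset.measurable_fun_sum _ fun s _ => Finset.measurable_fun_sum _ fun h _ => ?_
    exact (continuous_abs.measurable.comp ((hf h).sub (h2 s _)))
  · have h3 : Measurable fun x => ∑ h ∈ B', f h x - 1 :=
      (Finset.measurable_fun_sum _ fun h _ => hf h).sub measurable_const
    exact measurable_const.mul (continuous_abs.measurable.comp h3)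

/-- the average of the point masses -/
noncomputable def avg (y0 : Y) (n : ℕ) : Measure Y :=
  (Fintype.card (A.Θ n).V : ENNReal)⁻¹ • ∑ v : (A.Θ n).V, Measure.dirac ((ph A n v)⁻¹ • y0)

theorem card_pos (n : ℕ) : 0 < Fintype.card (A.Θ n).V := Fintype.card_pos_iff.2 ⟨(A.Θ n).v0⟩

instance avg_prob (y0 : Y) (n : ℕ) : IsProbabilityMeasure (avg A y0 n) := by
  constructor
  unfold avg
  rw [Measure.smul_apply, Measure.finsetSum_apply]
  simp only [measure_univ, Finset.sum_const, smul_eq_mul, nsmul_eq_mul, mul_one, Finset.card_univ]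
  apply ENNReal.inv_mul_cancel
  · have := card_pos A n
    simp only [ne_eq, Nat.cast_eq_zero]
    omega
  · exact ENNReal.natCast_ne_top _

theorem avg_int (y0 : Y) (n : ℕ) (g : Y → ℝ) (hg : Continuous g) :
    ∫ x, g x ∂(avg A y0 n) = (Fintype.card (A.Θ n).V : ℝ)⁻¹ *
      ∑ v : (A.Θ n).V, g ((ph A n v)⁻¹ • y0) := by
  unfold avg
  rw [integral_smul_measure, integral_finsetSum_measure]
  · simp only [integral_dirac]
    rw [ENNReal.toReal_inv, ENNReal.toReal_natCast]
    rfl
  · intro v _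
    exact (integrable_dirac (by simp))

theorem exists_limit [Nonempty Y] : ∃ μ : ProbabilityMeasure Y, ∀ (B B' : Finset (Gam A)),
    B ⊆ B' → (∀ s : Ltr k, ∀ b ∈ B, sg A s * b ∈ B') → ∀ f : Gam A → Y → ℝ,
    (∀ h, Continuous (f h)) → (∀ h x, 0 ≤ f h x) → (∀ h x, f h x ≠ 0 → h ∈ B) →
    9 ≤ 10 * ∫ x, Psi A B' f x ∂(μ : Measure Y) := by
  classical
  obtain ⟨y0⟩ := ‹Nonempty Y›
  let μs : ℕ → ProbabilityMeasure Y := fun n => ⟨avg A y0 n, avg_prob A y0 n⟩
  let U : Ultrafilter (ProbabilityMeasure Y) := (hyperfilter ℕ).map μs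
  obtain ⟨μ, -, hμ⟩ := (isCompact_univ (X := ProbabilityMeasure Y)).ultrafilter_le_nhds U
    (by simp)
  have hlim : Tendsto μs (hyperfilter ℕ) (𝓝 μ) := hμ
  refine ⟨μ, ?_⟩
  intro B B' hBB hsB f hf hf0 hfB
  have hcont := Psi_cont A B' f hf
  let g : Y →ᵇ ℝ := BoundedContinuousFunction.mkOfCompact ⟨Psi A B' f, hcont⟩
  have h1 := (ProbabilityMeasure.tendsto_iff_forall_integral_tendsto.1 hlim) g
  have h2 : (9 : ℝ) / 10 ≤ ∫ x, g x ∂(μ : Measure Y) := by
    refine ge_of_tendsto h1 ?_
    -- a bound for the norms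
    have hR : ∃ R : ℕ, ∀ b ∈ B, ∃ u : F k, (u : Gam A) = b ∧ u.norm ≤ R := by
      have h3 : ∀ b : Gam A, ∃ u : F k, (u : Gam A) = b := fun b => QuotientGroup.mk_surjective b
      choose rep hrep using h3
      refine ⟨∑ b ∈ B, (rep b).norm, fun b hb => ⟨rep b, hrep b, ?_⟩⟩
      exact Finset.single_le_sum (f := fun b => (rep b).norm) (fun _ _ => Nat.zero_le _) hb
    obtain ⟨R, hR⟩ := hR
    have hev : ∀ᶠ n in atTop, 6 * R + 3 < A.g n := by
      filter_upwards [A.monog.tendsto_atTop.eventually_gt_atTop (6 * R + 3)] with n hn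
      exact hn
    have hev2 : ∀ᶠ n in (hyperfilter ℕ : Filter ℕ), 6 * R + 3 < A.g n := by
      apply (Nat.cofinite_eq_atTop ▸ hyperfilter_le_cofinite : _)
      exact hev
    filter_upwards [hev2] with n hn
    have h4 := comb_Y A n R (by omega) (by omega) B B' hR hBB hsB f hf0 hfB y0
    have h5 : ∫ x, g x ∂((μs n : ProbabilityMeasure Y) : Measure Y) =
        (Fintype.card (A.Θ n).V : ℝ)⁻¹ * ∑ v : (A.Θ n).V, Psi A B' f ((ph A n v)⁻¹ • y0) :=
      avg_int A y0 n (Psi A B' f) hcont
    rw [h5]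
    have h6 : (0 : ℝ) < Fintype.card (A.Θ n).V := by exact_mod_cast card_pos A n
    rw [inv_mul_eq_div, le_div_iff₀ h6]
    linarith
  have h3 : ∫ x, g x ∂(μ : Measure Y) = ∫ x, Psi A B' f x ∂(μ : Measure Y) := rfl
  rw [h3] at h2
  linarith

theorem Psi_bdd (B' : Finset (Gam A)) (f : Gam A → Y → ℝ) (hf0 : ∀ h x, 0 ≤ f h x)
    (hf1 : ∀ h x, f h x ≤ 1) : ∃ C : ℝ, ∀ x, ‖Psi A B' f x‖ ≤ C := by
  refine ⟨(∑ s : Ltr k, ∑ h ∈ B', (1 : ℝ)) + 2 * ((∑ h ∈ B', (1 : ℝ)) + 1), fun x => ?_⟩
  have h0 : 0 ≤ Psi A B' f x := by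
    unfold Psi
    have : 0 ≤ ∑ s : Ltr k, ∑ h ∈ B', |f h x - f ((sg A s)⁻¹ * h) ((sg A s)⁻¹ • x)| :=
      Finset.sum_nonneg fun s _ => Finset.sum_nonneg fun h _ => abs_nonneg _
    positivity
  rw [Real.norm_of_nonneg h0]
  unfold Psi
  gcongr with s hs h hh
  · rw [abs_le]
    constructor
    · linarith [hf0 h x, hf1 ((sg A s)⁻¹ * h) ((sg A s)⁻¹ • x)]
    · linarith [hf1 h x, hf0 ((sg A s)⁻¹ * h) ((sg A s)⁻¹ • x)]
  · have h1 : 0 ≤ ∑ h ∈ B', f h x := Finset.sum_nonneg fun h _ => hf0 h x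
    have h2 : ∑ h ∈ B', f h x ≤ ∑ h ∈ B', (1 : ℝ) := Finset.sum_le_sum fun h _ => hf1 h x
    rw [abs_le]
    constructor <;> linarith

theorem limit_meas (μ : ProbabilityMeasure Y)
    (hμ : ∀ (B B' : Finset (Gam A)),
      B ⊆ B' → (∀ s : Ltr k, ∀ b ∈ B, sg A s * b ∈ B') → ∀ f : Gam A → Y → ℝ,
      (∀ h, Continuous (f h)) → (∀ h x, 0 ≤ f h x) → (∀ h x, f h x ≠ 0 → h ∈ B) →
      9 ≤ 10 * ∫ x, Psi A B' f x ∂(μ : Measure Y)) (B B' : Finset (Gam A))
    (hBB : B ⊆ B') (hsB : ∀ s : Ltr k, ∀ b ∈ B, sg A s * b ∈ B') (f : Gam A → Y → ℝ)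
    (hf : ∀ h, Measurable (f h)) (hf0 : ∀ h x, 0 ≤ f h x) (hf1 : ∀ h x, f h x ≤ 1)
    (hfB : ∀ h x, f h x ≠ 0 → h ∈ B) :
    9 ≤ 10 * ∫ x, Psi A B' f x ∂(μ : Measure Y) := by
  classical
  let ν : Measure Y := (μ : Measure Y) + ∑ s : Ltr k, (μ : Measure Y).map
    (fun x => (sg A s)⁻¹ • x)
  have hsm : ∀ s : Ltr k, Measurable fun x : Y => (sg A s)⁻¹ • x := fun s =>
    (continuous_const_smul _).measurable
  have hνf : IsFiniteMeasure ν := by
    have : ∀ s : Ltr k, IsFiniteMeasure ((μ : Measure Y).map (fun x => (sg A s)⁻¹ • x)) :=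
      fun s => inferInstance
    infer_instance
  let L : ℝ := (∑ s : Ltr k, ∑ h ∈ B', (2 : ℝ)) + 2 * ∑ h ∈ B', (1 : ℝ)
  have hL : 0 ≤ L := by positivity
  have key : ∀ ε : ℝ, 0 < ε → 9 ≤ 10 * (∫ x, Psi A B' f x ∂(μ : Measure Y)) + 10 * (L * ε) := by
    intro ε hε
    have hfi : ∀ h, Integrable (f h) ν := by
      intro h
      refine Integrable.of_bound (hf h).aestronglyMeasurable 1 (ae_of_all _ fun x => ?_)
      rw [Real.norm_of_nonneg (hf0 h x)]
      exact hf1 h x
    have hex : ∀ h, ∃ g : Y →ᵇ ℝ, (∫ x, ‖f h x - g x‖ ∂ν) ≤ ε ∧ Integrable g ν := fun h =>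
      (hfi h).exists_boundedContinuous_integral_sub_le hε
    choose g hg1 hg2 using hex
    let g' : Gam A → Y → ℝ := fun h x => if h ∈ B then |g h x| else 0
    have hg'c : ∀ h, Continuous (g' h) := by
      intro h
      by_cases hh : h ∈ B
      · simp only [g', hh, if_true]
        exact (g h).continuous.abs
      · simp only [g', hh, if_false]
        exact continuous_const
    have hmain := hμ B B' hBB hsB g' hg'c
      (fun h x => by
        simp only [g']
        split_ifs
        · exact abs_nonneg _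
        · exact le_refl _)
      (fun h x hne => by
        by_contra hh
        simp only [g', hh, if_false, ne_eq, not_true_eq_false] at hne)
    -- the differences
    let D : Gam A → Y → ℝ := fun h x => |f h x - g' h x|
    have hDle : ∀ h x, D h x ≤ ‖f h x - g h x‖ := by
      intro h x
      simp only [D, g', Real.norm_eq_abs]
      split_ifs with hh
      · have := abs_abs_sub_abs_le (f h x) (g h x)
        rwa [abs_of_nonneg (hf0 h x)] at this
      · have : f h x = 0 := by
          by_contra h1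
          exact hh (hfB h x h1)
        rw [this]
        simp
    have hDm : ∀ h, Measurable (D h) := fun h =>
      continuous_abs.measurable.comp ((hf h).sub (hg'c h).measurable)
    have hDi : ∀ h, Integrable (D h) ν := by
      intro h
      refine Integrable.mono ((hfi h).sub (hg2 h)).norm (hDm h).aestronglyMeasurable
        (ae_of_all _ fun x => ?_)
      have := hDle h x
      rw [Real.norm_of_nonneg (abs_nonneg _)]
      refine this.trans ?_
      simp
    have hDν : ∀ h, ∫ x, D h x ∂ν ≤ ε := by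
      intro h
      refine (integral_mono (hDi h) ((hfi h).sub (hg2 h)).norm fun x => ?_).trans (hg1 h)
      exact hDle h x
    have hμν : (μ : Measure Y) ≤ ν := Measure.le_add_right le_rfl
    have hsν : ∀ s : Ltr k, (μ : Measure Y).map (fun x => (sg A s)⁻¹ • x) ≤ ν := by
      intro s
      refine Measure.le_add_left ?_
      exact Finset.single_le_sum (f := fun s : Ltr k => (μ : Measure Y).map
        (fun x => (sg A s)⁻¹ • x)) (fun _ _ => Measure.zero_le _) (Finset.mem_univ s)
    have hDμ : ∀ h, Integrable (D h) (μ : Measure Y) ∧ ∫ x, D h x ∂(μ : Measure Y) ≤ ε := by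
      intro h
      refine ⟨(hDi h).mono_measure hμν, ?_⟩
      refine (integral_mono_measure hμν (ae_of_all _ fun x => abs_nonneg _) (hDi h)).trans (hDν h)
    have hDs : ∀ s h, Integrable (fun x => D h ((sg A s)⁻¹ • x)) (μ : Measure Y) ∧
        ∫ x, D h ((sg A s)⁻¹ • x) ∂(μ : Measure Y) ≤ ε := by
      intro s h
      have h1 : Integrable (D h) ((μ : Measure Y).map (fun x => (sg A s)⁻¹ • x)) :=
        (hDi h).mono_measure (hsν s)
      constructor
      · exact (integrable_map_measure (hDm h).aestronglyMeasurable (hsm s).aemeasurable).1 h1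
      · rw [← integral_map (hsm s).aemeasurable (hDm h).aestronglyMeasurable]
        exact (integral_mono_measure (hsν s) (ae_of_all _ fun x => abs_nonneg _)
          (hDi h)).trans (hDν h)
    have hpt : ∀ x, Psi A B' g' x ≤ Psi A B' f x +
        ((∑ s : Ltr k, ∑ h ∈ B', (D h x + D ((sg A s)⁻¹ * h) ((sg A s)⁻¹ • x))) +
          2 * ∑ h ∈ B', D h x) := by
      intro x
      unfold Psi
      have e1 : ∀ s : Ltr k, ∀ h, |g' h x - g' ((sg A s)⁻¹ * h) ((sg A s)⁻¹ • x)| ≤
          |f h x - f ((sg A s)⁻¹ * h) ((sg A s)⁻¹ • x)| +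
          (D h x + D ((sg A s)⁻¹ * h) ((sg A s)⁻¹ • x)) := by
        intro s h
        simp only [D]
        generalize f ((sg A s)⁻¹ * h) ((sg A s)⁻¹ • x) = b
        generalize g' ((sg A s)⁻¹ * h) ((sg A s)⁻¹ • x) = b'
        generalize f h x = a
        generalize g' h x = a'
        have : a' - b' = (a - b) + (-(a - a') + (b - b')) := by ring
        rw [this]
        refine (abs_add_le _ _).trans (add_le_add le_rfl ?_)
        refine (abs_add_le _ _).trans ?_
        rw [abs_neg]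
      have e2 : |∑ h ∈ B', g' h x - 1| ≤ |∑ h ∈ B', f h x - 1| + ∑ h ∈ B', D h x := by
        have e3 : ∑ h ∈ B', g' h x - 1 = (∑ h ∈ B', f h x - 1) +
            (- ∑ h ∈ B', (f h x - g' h x)) := by
          rw [Finset.sum_sub_distrib]
          ring
        rw [e3]
        refine (abs_add_le _ _).trans (add_le_add le_rfl ?_)
        rw [abs_neg]
        exact Finset.abs_sum_le_sum_abs _ _
      have e4 : (∑ s : Ltr k, ∑ h ∈ B',
          |g' h x - g' ((sg A s)⁻¹ * h) ((sg A s)⁻¹ • x)|) ≤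
          (∑ s : Ltr k, ∑ h ∈ B', |f h x - f ((sg A s)⁻¹ * h) ((sg A s)⁻¹ • x)|) +
          ∑ s : Ltr k, ∑ h ∈ B', (D h x + D ((sg A s)⁻¹ * h) ((sg A s)⁻¹ • x)) := by
        rw [← Finset.sum_add_distrib]
        refine Finset.sum_le_sum fun s _ => ?_
        rw [← Finset.sum_add_distrib]
        exact Finset.sum_le_sum fun h _ => e1 s h
      linarith
    have hPf : Integrable (Psi A B' f) (μ : Measure Y) := by
      obtain ⟨C, hC⟩ := Psi_bdd A B' f hf0 hf1
      exact Integrable.of_bound (Psi_meas A B' f hf).aestronglyMeasurable C (ae_of_all _ hC)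
    have hPg : Integrable (Psi A B' g') (μ : Measure Y) := by
      have := (Psi_cont A B' g' hg'c)
      exact (BoundedContinuousFunction.mkOfCompact ⟨_, this⟩).integrable _
    have hI1 : ∀ s : Ltr k, ∀ h, Integrable
        (fun x => D h x + D ((sg A s)⁻¹ * h) ((sg A s)⁻¹ • x)) (μ : Measure Y) := fun s h =>
      (hDμ h).1.add (hDs s _).1
    have hI2 : Integrable (fun x => ∑ s : Ltr k, ∑ h ∈ B',
        (D h x + D ((sg A s)⁻¹ * h) ((sg A s)⁻¹ • x))) (μ : Measure Y) :=
      integrable_finsetSum _ fun s _ => integrable_finsetSum _ fun h _ => hI1 s h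
    have hI3 : Integrable (fun x => 2 * ∑ h ∈ B', D h x) (μ : Measure Y) :=
      (integrable_finsetSum _ fun h _ => (hDμ h).1).const_mul 2
    have hint : ∫ x, Psi A B' g' x ∂(μ : Measure Y) ≤
        ∫ x, Psi A B' f x ∂(μ : Measure Y) + L * ε := by
      refine (integral_mono hPg (hPf.add (hI2.add hI3)) hpt).trans ?_
      have e5 : ∫ x, (Psi A B' f + ((fun x => ∑ s : Ltr k, ∑ h ∈ B',
          (D h x + D ((sg A s)⁻¹ * h) ((sg A s)⁻¹ • x))) + fun x => 2 * ∑ h ∈ B', D h x)) x
          ∂(μ : Measure Y) = ∫ x, Psi A B' f x ∂(μ : Measure Y) +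
          ((∑ s : Ltr k, ∑ h ∈ B', (∫ x, D h x ∂(μ : Measure Y) +
            ∫ x, D ((sg A s)⁻¹ * h) ((sg A s)⁻¹ • x) ∂(μ : Measure Y))) +
          2 * ∑ h ∈ B', ∫ x, D h x ∂(μ : Measure Y)) := by
        rw [integral_add' hPf (hI2.add hI3), integral_add' hI2 hI3, integral_const_mul,
          integral_finsetSum _ (fun h _ => (hDμ h).1),
          integral_finsetSum _ (fun s _ => integrable_finsetSum _ fun h _ => hI1 s h)]
        congr 3
        funext s
        rw [integral_finsetSum _ (fun h _ => hI1 s h)]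
        apply Finset.sum_congr rfl
        intro h _
        rw [integral_add (hDμ h).1 (hDs s _).1]
      rw [e5]
      have e6 : ∑ s : Ltr k, ∑ h ∈ B', (∫ x, D h x ∂(μ : Measure Y) +
            ∫ x, D ((sg A s)⁻¹ * h) ((sg A s)⁻¹ • x) ∂(μ : Measure Y)) ≤
          ∑ s : Ltr k, ∑ h ∈ B', (2 : ℝ) * ε := by
        refine Finset.sum_le_sum fun s _ => Finset.sum_le_sum fun h _ => ?_
        have := (hDμ h).2
        have := (hDs s ((sg A s)⁻¹ * h)).2
        linarith
      have e7 : ∑ h ∈ B', ∫ x, D h x ∂(μ : Measure Y) ≤ ∑ h ∈ B', (1 : ℝ) * ε := by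
        refine Finset.sum_le_sum fun h _ => ?_
        have := (hDμ h).2
        linarith
      simp only [← Finset.sum_mul] at e6 e7
      simp only [L]
      linarith
    linarith
  by_contra hcon
  push Not at hcon
  by_cases hL0 : L = 0
  · have := key 1 one_pos
    rw [hL0] at this
    linarith
  · have hLpos : 0 < L := lt_of_le_of_ne hL (Ne.symm hL0)
    have := key ((9 - 10 * ∫ x, Psi A B' f x ∂(μ : Measure Y)) / (20 * L))
      (div_pos (by linarith) (by positivity))
    have e : 10 * (L * ((9 - 10 * ∫ x, Psi A B' f x ∂(μ : Measure Y)) / (20 * L))) =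
        (9 - 10 * ∫ x, Psi A B' f x ∂(μ : Measure Y)) / 2 := by
      field_simp
      ring
    rw [e] at this
    linarith

end

end Pool.Agent.H63ne
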